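import Mathlib.Algebra.AffineMonoid.Basic
import Mathlib.RingTheory.Flat.FaithfullyFlat.Basic
import Mathlib.RingTheory.Flat.TorsionFree
import Mathlib.Data.Int.Star
import Mathlib.NumberTheory.NumberField.InfinitePlace.Embeddings
import Mathlib.Analysis.Polynomial.CauchyBound
import Mathlib.Analysis.Polynomial.MahlerMeasure
import Mathlib.RingTheory.SimpleRing.Principal
import Mathlib.Tactic.Polynomial.Basic

-- ======== part 0: formerly Pool.Agent.MP_3c6bfc_nt.Pisot
section MrgPart0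

/-! Dirichlet's box principle and Pisot numbers in real number fields. -/

set_option autoImplicit false

namespace Pool.Agent.MP_3c6bfc_nt

open Polynomial NumberField IntermediateField

lemma box {ι κ : Type*} [Fintype ι] [Fintype κ] (L : κ → ι → ℝ) (A : ℝ)
    (hA : ∀ j i, |L j i| ≤ A) (hA0 : 0 ≤ A) (B : ℕ) (Q : κ → ℕ) (hQ : ∀ j, 0 < Q j)
    (h : ∏ j, Q j < (B + 1) ^ Fintype.card ι) :
    ∃ x : ι → ℤ, x ≠ 0 ∧ (∀ i, |x i| ≤ B) ∧
      ∀ j, |∑ i, L j i * x i| < (2 * (Fintype.card ι * A * B) + 1) / Q j := by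
  classical
  set R : ℝ := Fintype.card ι * A * B with hR
  have hR0 : 0 ≤ R := by positivity
  have hb : ∀ y ∈ Fintype.piFinset fun _ : ι => Finset.range (B + 1), ∀ j,
      |∑ i, L j i * (y i : ℝ)| ≤ R := by
    intro y hy j
    refine (Finset.abs_sum_le_sum_abs _ _).trans ?_
    have : ∀ i ∈ (Finset.univ : Finset ι), |L j i * (y i : ℝ)| ≤ A * B := by
      intro i _
      have h1 : y i ≤ B := by
        have := Finset.mem_range.1 (Fintype.mem_piFinset.1 hy i)
        omega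
      have h2 : (y i : ℝ) ≤ B := by exact_mod_cast h1
      rw [abs_mul, Nat.abs_cast]
      exact mul_le_mul (hA j i) h2 (by positivity) hA0
    refine (Finset.sum_le_sum this).trans ?_
    rw [Finset.sum_const, Finset.card_univ, nsmul_eq_mul, hR, mul_assoc]
  set f : (ι → ℕ) → κ → ℕ := fun y j =>
    ⌊(∑ i, L j i * (y i : ℝ) + R) * Q j / (2 * R + 1)⌋₊ with hf
  have hmaps : ∀ y ∈ Fintype.piFinset fun _ : ι => Finset.range (B + 1),
      f y ∈ Fintype.piFinset fun j : κ => Finset.range (Q j) := by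
    intro y hy
    refine Fintype.mem_piFinset.2 fun j => Finset.mem_range.2 ?_
    have h1 := abs_le.1 (hb y hy j)
    have hQ0 : (0 : ℝ) < Q j := by exact_mod_cast hQ j
    simp only [hf]
    rw [Nat.floor_lt (by apply div_nonneg (mul_nonneg (by linarith) hQ0.le); linarith),
      div_lt_iff₀ (by linarith)]
    nlinarith
  obtain ⟨y, hy, y', hy', hne, heq⟩ := Finset.exists_ne_map_eq_of_card_lt_of_maps_to (by
    simpa [Fintype.card_piFinset] using h) hmaps
  refine ⟨fun i => (y i : ℤ) - y' i, ?_, ?_, ?_⟩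
  · intro h0
    apply hne
    funext i
    have := congrFun h0 i
    simp only [Pi.zero_apply] at this
    omega
  · intro i
    have h1 := Finset.mem_range.1 (Fintype.mem_piFinset.1 hy i)
    have h2 := Finset.mem_range.1 (Fintype.mem_piFinset.1 hy' i)
    show |(y i : ℤ) - y' i| ≤ B
    rw [abs_le]; omega
  · intro j
    have h1 := abs_le.1 (hb y hy j)
    have h2 := abs_le.1 (hb y' hy' j)
    have hQ0 : (0 : ℝ) < Q j := by exact_mod_cast hQ j
    have h3 := congrFun heq j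
    simp only [hf] at h3
    have hD : (0 : ℝ) < 2 * R + 1 := by linarith
    have n1 : 0 ≤ (∑ i, L j i * (y i : ℝ) + R) * Q j / (2 * R + 1) :=
      div_nonneg (mul_nonneg (by linarith) hQ0.le) hD.le
    have n2 : 0 ≤ (∑ i, L j i * (y' i : ℝ) + R) * Q j / (2 * R + 1) :=
      div_nonneg (mul_nonneg (by linarith) hQ0.le) hD.le
    have a1 := Nat.floor_le n1
    have a2 := Nat.lt_floor_add_one ((∑ i, L j i * (y i : ℝ) + R) * Q j / (2 * R + 1))
    have b1 := Nat.floor_le n2
    have b2 := Nat.lt_floor_add_one ((∑ i, L j i * (y' i : ℝ) + R) * Q j / (2 * R + 1))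
    rw [h3] at a1 a2
    have h4 : ∑ i, L j i * (((y i : ℤ) - y' i : ℤ) : ℝ)
        = ∑ i, L j i * (y i : ℝ) - ∑ i, L j i * (y' i : ℝ) := by
      rw [← Finset.sum_sub_distrib]
      refine Finset.sum_congr rfl fun i _ => ?_
      push_cast; ring
    rw [h4, lt_div_iff₀ hQ0, ← abs_of_pos hQ0, ← abs_mul]
    have h5 : (∑ i, L j i * (y i : ℝ) - ∑ i, L j i * (y' i : ℝ)) * Q j
        = ((∑ i, L j i * (y i : ℝ) + R) * Q j / (2 * R + 1)
          - (∑ i, L j i * (y' i : ℝ) + R) * Q j / (2 * R + 1)) * (2 * R + 1) := by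
      field_simp; ring
    rw [h5, abs_mul, abs_of_pos hD]
    have h6 : |(∑ i, L j i * (y i : ℝ) + R) * Q j / (2 * R + 1)
          - (∑ i, L j i * (y' i : ℝ) + R) * Q j / (2 * R + 1)| < 1 := by
      rw [abs_lt]; constructor <;> linarith
    nlinarith

/-- The given embedding of a real field into `ℂ`. -/
noncomputable def emb (K : IntermediateField ℚ ℝ) : K →+* ℂ :=
  Complex.ofRealHom.comp (algebraMap K ℝ)

@[simp] lemma emb_apply (K : IntermediateField ℚ ℝ) (x : K) : emb K x = ((x : ℝ) : ℂ) := rfl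

/-- The largest modulus of a coefficient. -/
def ht (P : ℤ[X]) : ℕ := P.support.sup fun i => (P.coeff i).natAbs

lemma coeff_le_ht (P : ℤ[X]) (i : ℕ) : (P.coeff i).natAbs ≤ ht P := by
  by_cases h : i ∈ P.support
  · exact Finset.le_sup (f := fun i => (P.coeff i).natAbs) h
  · rw [notMem_support_iff.1 h]; simp

lemma pisot (K : IntermediateField ℚ ℝ) [FiniteDimensional ℚ K] (γ : K) (hint : IsIntegral ℤ γ)
    (h0 : γ ≠ 0) (hs : ∀ σ : K →+* ℂ, σ ≠ emb K → ‖σ γ‖ < 1) :
    1 ≤ |(γ : ℝ)| ∧ ℚ⟮(γ : ℝ)⁻¹⟯ = K ∧ ∃ P : ℤ[X], P.IsPrimitive ∧ aeval (γ : ℝ)⁻¹ P = 0 ∧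
      P.natDegree = (minpoly ℚ (γ : ℝ)⁻¹).natDegree ∧
      (ht P : ℝ) ≤ 2 ^ Module.finrank ℚ K * |(γ : ℝ)| ∧ |(γ : ℝ)| ≤ ht P + 1 := by
  classical
  have : NumberField K := ⟨⟩
  have hnorm : ‖emb K γ‖ = |(γ : ℝ)| := by simp
  have h1 : 1 ≤ |(γ : ℝ)| := by
    by_contra hlt
    push Not at hlt
    obtain ⟨n, hn, hpow⟩ := Embeddings.pow_eq_one_of_norm_le_one K ℂ h0 hint fun σ => by
      by_cases hσ : σ = emb K
      · rw [hσ, hnorm]; exact hlt.le
      · exact (hs σ hσ).le
    have h2 : |(γ : ℝ)| ^ n = 1 := by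
      rw [← abs_pow]
      have : ((γ ^ n : K) : ℝ) = 1 := by rw [hpow]; rfl
      push_cast at this
      rw [this, abs_one]
    have := pow_lt_one₀ (abs_nonneg _) hlt hn.ne'
    linarith
  have hγ0 : (γ : ℝ) ≠ 0 := by
    intro h; rw [h, abs_zero] at h1; linarith
  have htop : ℚ⟮γ⟯ = ⊤ := by
    rw [Field.primitive_element_iff_algHom_eq_of_eval ℚ ℂ (fun x => IsAlgClosed.splits _) γ
      (emb K).toRatAlgHom]
    intro ψ hψ
    by_contra hne
    have h2 : ψ.toRingHom ≠ emb K := by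
      intro h; apply hne
      ext x
      exact (congrArg (fun f : K →+* ℂ => f x) h).symm
    have h3 := hs _ h2
    have h4 : ψ.toRingHom γ = emb K γ := hψ.symm
    rw [h4, hnorm] at h3
    linarith
  have hadj : ℚ⟮(γ : ℝ)⟯ = K := by
    have := congr_arg IntermediateField.lift htop
    exact (IntermediateField.lift_adjoin_simple ℚ K γ).symm.trans
      (this.trans (IntermediateField.lift_top ℚ K))
  have hadj' : ℚ⟮(γ : ℝ)⁻¹⟯ = K := by
    refine Eq.trans ?_ hadj
    apply le_antisymm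
    · rw [adjoin_simple_le_iff]
      exact inv_mem (mem_adjoin_simple_self ℚ _)
    · rw [adjoin_simple_le_iff]
      simpa using inv_mem (mem_adjoin_simple_self ℚ (γ : ℝ)⁻¹)
  refine ⟨h1, hadj', ?_⟩
  set F := minpoly ℤ γ with hF
  have hFm : F.Monic := minpoly.monic hint
  have hFQ : minpoly ℚ γ = F.map (algebraMap ℤ ℚ) :=
    minpoly.isIntegrallyClosed_eq_field_fractions' ℚ hint
  have hFdeg : F.natDegree = Module.finrank ℚ K := by
    rw [← hFm.natDegree_map (algebraMap ℤ ℚ), ← hFQ]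
    exact (Field.primitive_element_iff_minpoly_natDegree_eq ℚ γ).1 htop
  have hF0 : F.coeff 0 ≠ 0 := by
    intro h
    apply minpoly.coeff_zero_ne_zero (Algebra.IsIntegral.isIntegral (R := ℚ) γ) h0
    rw [hFQ, coeff_map, h, map_zero]
  have hFγ : aeval (γ : ℝ) F = 0 := by
    have : aeval (algebraMap K ℝ γ) F = 0 := by
      rw [aeval_algebraMap_apply, minpoly.aeval, map_zero]
    exact this
  -- the complex polynomial
  set G : ℂ[X] := F.map (Int.castRingHom ℂ) with hG
  have hGm : G.Monic := hFm.map _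
  have hGQ : G = (minpoly ℚ γ).map (algebraMap ℚ ℂ) := by
    rw [hFQ, Polynomial.map_map]; congr 1
  have hnodup : G.roots.Nodup := by
    rw [hGQ]
    exact nodup_roots (Polynomial.Separable.map (Algebra.IsSeparable.isSeparable ℚ γ))
  have hroots : ∀ z ∈ G.roots, ∃ σ : K →+* ℂ, σ γ = z := by
    intro z hz
    have h2 : z ∈ (minpoly ℚ γ).rootSet ℂ := by
      rw [mem_rootSet]
      refine ⟨minpoly.ne_zero (Algebra.IsIntegral.isIntegral γ), ?_⟩
      have := (mem_roots hGm.ne_zero).1 hz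
      rwa [hGQ, IsRoot.def, eval_map_algebraMap] at this
    rw [← Embeddings.range_eval_eq_rootSet_minpoly] at h2
    exact h2
  have hGroot : G.IsRoot (emb K γ) := by
    rw [hG, IsRoot.def, eval_map, emb_apply]
    have := congrArg Complex.ofRealHom hFγ
    rw [aeval_def, hom_eval₂, map_zero] at this
    rwa [RingHom.eq_intCast' (Complex.ofRealHom.comp (algebraMap ℤ ℝ))] at this
  have hM : G.mahlerMeasure = |(γ : ℝ)| := by
    rw [mahlerMeasure_eq_leadingCoeff_mul_prod_roots, hGm.leadingCoeff, norm_one, one_mul,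
      ← Multiset.cons_erase ((mem_roots hGm.ne_zero).2 hGroot), Multiset.map_cons,
      Multiset.prod_cons, hnorm, max_eq_right h1, Multiset.prod_eq_one, mul_one]
    intro x hx
    obtain ⟨z, hz, rfl⟩ := Multiset.mem_map.1 hx
    rw [hnodup.mem_erase_iff] at hz
    obtain ⟨σ, rfl⟩ := hroots z hz.2
    exact max_eq_left (hs σ fun h => hz.1 (by rw [h])).le
  have hcoeff : ∀ i, ((F.coeff i).natAbs : ℝ) ≤ 2 ^ Module.finrank ℚ K * |(γ : ℝ)| := by
    intro i
    have h2 := norm_coeff_le_choose_mul_mahlerMeasure i G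
    rw [hM, hG, coeff_map, hFm.natDegree_map, hFdeg] at h2
    have h3 : ((Module.finrank ℚ K).choose i : ℝ) ≤ 2 ^ Module.finrank ℚ K := by
      exact_mod_cast Nat.choose_le_two_pow _ _
    have h4 : ‖(Int.castRingHom ℂ) (F.coeff i)‖ = ((F.coeff i).natAbs : ℝ) := by
      simp [Nat.cast_natAbs]
    rw [h4] at h2
    exact h2.trans (by gcongr)
  have hP0 : F.reverse.coeff 0 = 1 := by rw [coeff_zero_reverse, hFm.leadingCoeff]
  refine ⟨F.reverse, ?_, ?_, ?_, ?_, ?_⟩
  · intro r hr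
    have := (C_dvd_iff_dvd_coeff r _).1 hr 0
    rw [hP0] at this
    exact isUnit_of_dvd_one this
  · let _ : Invertible (γ : ℝ) := invertibleOfNonzero hγ0
    rw [aeval_def, ← invOf_eq_inv, eval₂_reverse_eq_zero_iff]
    exact hFγ
  · rw [reverse_natDegree, natTrailingDegree_eq_zero.2 (Or.inr hF0), Nat.sub_zero, hFdeg,
      ← adjoin.finrank, hadj']
    have : IsIntegral ℚ (algebraMap K ℝ γ⁻¹) :=
      (Algebra.IsIntegral.isIntegral (R := ℚ) γ⁻¹).algebraMap
    simpa using this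
  · have : ht F.reverse ≤ ⌊(2 : ℝ) ^ Module.finrank ℚ K * |(γ : ℝ)|⌋₊ := by
      refine Finset.sup_le fun i _ => Nat.le_floor ?_
      rw [coeff_reverse]; exact hcoeff _
    exact (Nat.cast_le.2 this).trans (Nat.floor_le (by positivity))
  · have h2 := hGroot.norm_lt_cauchyBound hGm.ne_zero
    have h3 : (Finset.range G.natDegree).sup (fun i => ‖G.coeff i‖₊) ≤ (ht F.reverse : NNReal) := by
      refine Finset.sup_le fun i _ => ?_
      have h4 : F.coeff i = F.reverse.coeff (revAt F.natDegree i) := by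
        rw [coeff_reverse, revAt_invol]
      have h5 := coeff_le_ht F.reverse (revAt F.natDegree i)
      rw [← h4] at h5
      rw [← NNReal.coe_le_coe, hG, coeff_map, coe_nnnorm]
      have h6 : ‖(Int.castRingHom ℂ) (F.coeff i)‖ = ((F.coeff i).natAbs : ℝ) := by
        simp [Nat.cast_natAbs]
      rw [h6]
      exact_mod_cast h5
    rw [cauchyBound, hGm.leadingCoeff, nnnorm_one, div_one] at h2
    have h4 : ‖emb K γ‖₊ ≤ (ht F.reverse : NNReal) + 1 := h2.le.trans (by gcongr)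
    rw [← hnorm]
    exact_mod_cast h4

end Pool.Agent.MP_3c6bfc_nt

end MrgPart0

-- ======== part 1: formerly Pool.Agent.MP_3c6bfc_nt.Approx
section MrgPart1

/-! Pairs of Pisot numbers, one in each of two real number fields, that are very close. -/

set_option autoImplicit false

namespace Pool.Agent.MP_3c6bfc_nt

open Polynomial NumberField IntermediateField Module

lemma exists_int_basis (K : IntermediateField ℚ ℝ) [FiniteDimensional ℚ K] (r : ℕ)
    (hr : r = finrank ℚ K) :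
    ∃ b : Fin r → K, (∀ i, IsIntegral ℤ (b i)) ∧
      ∀ x : Fin r → ℤ, ∑ i, (x i : K) * b i = 0 → x = 0 := by
  subst hr
  have : NumberField K := ⟨⟩
  have hc : Fintype.card (Free.ChooseBasisIndex ℤ (𝓞 K)) = finrank ℚ K :=
    (finrank_eq_card_basis (integralBasis K)).symm
  set e := Fintype.equivFinOfCardEq hc
  refine ⟨fun i => integralBasis K (e.symm i), fun i => ?_, fun x hx => ?_⟩
  · simp only [integralBasis_apply]
    exact RingOfIntegers.isIntegral_coe _
  · have hli := (integralBasis K).linearIndependent.comp e.symm e.symm.injective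
    have := Fintype.linearIndependent_iff.1 hli (fun i => (x i : ℚ)) (by
      rw [← hx]
      refine Finset.sum_congr rfl fun i _ => ?_
      simp [Algebra.smul_def])
    funext i
    exact_mod_cast this i

lemma card_other (K : IntermediateField ℚ ℝ) [FiniteDimensional ℚ K] :
    Nat.card {σ : K →+* ℂ // σ ≠ emb K} + 1 = finrank ℚ K := by
  classical
  have : NumberField K := ⟨⟩
  have h1 := Embeddings.card K ℂ
  have h2 : 0 < finrank ℚ K := finrank_pos
  rw [Nat.card_eq_fintype_card, Fintype.card_subtype_compl, Fintype.card_subtype_eq, h1]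
  omega

lemma norm_lt_one_of_re_add_im (K : IntermediateField ℚ ℝ) (γ : K)
    (h : ∀ σ : K →+* ℂ, σ ≠ emb K → |(σ γ).re + (σ γ).im| < 1 / 2) (σ : K →+* ℂ)
    (hσ : σ ≠ emb K) : ‖σ γ‖ < 1 := by
  have h1 := h σ hσ
  have h2 := h (ComplexEmbedding.conjugate σ) (by
    intro hc
    apply hσ
    ext x
    have := congrArg (fun f : K →+* ℂ => (starRingEnd ℂ) (f x)) hc
    simpa using this)
  simp only [ComplexEmbedding.conjugate_coe_eq, Complex.conj_re, Complex.conj_im] at h2
  rw [abs_lt] at h1 h2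
  rw [← sq_lt_one_iff₀ (norm_nonneg _), Complex.sq_norm, Complex.normSq_apply]
  nlinarith

/-- Close pairs of integers with small other conjugates. -/
lemma approx (K₁ K₂ : IntermediateField ℚ ℝ) [FiniteDimensional ℚ K₁] [FiniteDimensional ℚ K₂] :
    ∃ C : ℝ, 0 < C ∧ ∀ m : ℕ, 1 ≤ m → ∃ γ₁ : K₁, ∃ γ₂ : K₂, IsIntegral ℤ γ₁ ∧ IsIntegral ℤ γ₂ ∧
      (γ₁ ≠ 0 ∨ γ₂ ≠ 0) ∧ (∀ σ : K₁ →+* ℂ, σ ≠ emb K₁ → ‖σ γ₁‖ < 1) ∧
      (∀ σ : K₂ →+* ℂ, σ ≠ emb K₂ → ‖σ γ₂‖ < 1) ∧ |(γ₁ : ℝ)| ≤ C * m ∧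
      |(γ₁ : ℝ) - γ₂| ≤ C / m := by
  classical
  have : NumberField K₁ := ⟨⟩
  have : NumberField K₂ := ⟨⟩
  obtain ⟨r, hr⟩ : ∃ r, r = finrank ℚ K₁ := ⟨_, rfl⟩
  obtain ⟨s, hs⟩ : ∃ s, s = finrank ℚ K₂ := ⟨_, rfl⟩
  obtain ⟨b₁, hb₁, hi₁⟩ := exists_int_basis K₁ r hr
  obtain ⟨b₂, hb₂, hi₂⟩ := exists_int_basis K₂ s hs
  let S₁ := {σ : K₁ →+* ℂ // σ ≠ emb K₁}
  let S₂ := {σ : K₂ →+* ℂ // σ ≠ emb K₂}
  let L : Option (S₁ ⊕ S₂) → Fin r ⊕ Fin s → ℝ := fun j i =>
    match j, i with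
    | none, Sum.inl i => (b₁ i : ℝ)
    | none, Sum.inr i => -(b₂ i : ℝ)
    | some (Sum.inl σ), Sum.inl i => (σ.1 (b₁ i)).re + (σ.1 (b₁ i)).im
    | some (Sum.inl _), Sum.inr _ => 0
    | some (Sum.inr _), Sum.inl _ => 0
    | some (Sum.inr σ), Sum.inr i => (σ.1 (b₂ i)).re + (σ.1 (b₂ i)).im
  obtain ⟨A0, hA0⟩ := (Set.finite_range fun p : Option (S₁ ⊕ S₂) × (Fin r ⊕ Fin s) =>
    |L p.1 p.2|).bddAbove
  obtain ⟨A, hA1⟩ := exists_nat_ge A0
  have hA : ∀ j i, |L j i| ≤ A := fun j i => (hA0 ⟨(j, i), rfl⟩).trans hA1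
  set n := r + s with hn
  set k := Fintype.card (S₁ ⊕ S₂) with hk
  have hkn : k + 2 = n := by
    have h1 : Nat.card S₁ + 1 = finrank ℚ K₁ := card_other K₁
    have h2 : Nat.card S₂ + 1 = finrank ℚ K₂ := card_other K₂
    rw [hk, ← Nat.card_eq_fintype_card, Nat.card_sum]
    omega
  set c := (4 * n * A + 2) ^ k with hc
  have hc1 : 1 ≤ c := Nat.one_le_pow _ _ (by omega)
  refine ⟨(2 * n * A + 1) * c, by positivity, fun m hm => ?_⟩
  obtain ⟨x, hx0, hxB, hx⟩ := box L A hA (by positivity) (c * m)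
    (fun j => Option.elim j (c * m ^ 2) fun _ => 2 * (2 * (n * A * (c * m)) + 1))
    (by
      rintro (_ | j)
      · exact Nat.mul_pos hc1 (by positivity)
      · simp) (by
      rw [Fintype.prod_option]
      simp only [Option.elim, Finset.prod_const, Finset.card_univ, Fintype.card_sum,
        Fintype.card_fin]
      rw [← Fintype.card_sum, ← hk, ← hn, ← hkn]
      have h1 : 2 * (2 * ((k + 2) * A * (c * m)) + 1) ≤ (4 * n * A + 2) * (c * m + 1) := by
        rw [hkn]; nlinarith [Nat.zero_le (n * A), Nat.zero_le (c * m)]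
      calc c * m ^ 2 * (2 * (2 * ((k + 2) * A * (c * m)) + 1)) ^ k
          ≤ c * m ^ 2 * ((4 * n * A + 2) * (c * m + 1)) ^ k := by gcongr
        _ = (c * m) ^ 2 * (c * m + 1) ^ k := by rw [mul_pow, ← hc]; ring
        _ < (c * m + 1) ^ 2 * (c * m + 1) ^ k := by gcongr; omega
        _ = (c * m + 1) ^ (k + 2) := by ring)
  have hcard : Fintype.card (Fin r ⊕ Fin s) = n := by simp [hn]
  rw [hcard] at hx
  have hm0 : (0 : ℝ) < m := by exact_mod_cast hm
  have hm1 : (1 : ℝ) ≤ m := by exact_mod_cast hm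
  have hc0 : (1 : ℝ) ≤ c := by exact_mod_cast hc1
  have hhalf : ∀ j : S₁ ⊕ S₂, |∑ i, L (some j) i * x i| < 1 / 2 := by
    intro j
    refine (hx (some j)).trans_le (le_of_eq ?_)
    simp only [Option.elim]
    push_cast
    field_simp
  refine ⟨∑ i, (x (Sum.inl i) : K₁) * b₁ i, ∑ i, (x (Sum.inr i) : K₂) * b₂ i, ?_, ?_, ?_, ?_, ?_,
    ?_, ?_⟩
  · exact IsIntegral.sum _ fun i _ => (isIntegral_algebraMap (x := x (Sum.inl i))).mul (hb₁ i)
  · exact IsIntegral.sum _ fun i _ => (isIntegral_algebraMap (x := x (Sum.inr i))).mul (hb₂ i)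
  · by_contra hcon
    push Not at hcon
    apply hx0
    funext i
    rcases i with i | i
    · exact congrFun (hi₁ _ hcon.1) i
    · exact congrFun (hi₂ _ hcon.2) i
  · refine norm_lt_one_of_re_add_im K₁ _ fun σ hσ => ?_
    have := hhalf (Sum.inl ⟨σ, hσ⟩)
    rw [Fintype.sum_sum_type] at this
    simp only [L, zero_mul, Finset.sum_const_zero, add_zero] at this
    convert this using 2
    simp only [map_sum, map_mul, map_intCast, Complex.re_sum, Complex.im_sum,
      ← Finset.sum_add_distrib]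
    refine Finset.sum_congr rfl fun i _ => ?_
    simp; ring
  · refine norm_lt_one_of_re_add_im K₂ _ fun σ hσ => ?_
    have := hhalf (Sum.inr ⟨σ, hσ⟩)
    rw [Fintype.sum_sum_type] at this
    simp only [L, zero_mul, Finset.sum_const_zero, zero_add] at this
    convert this using 2
    simp only [map_sum, map_mul, map_intCast, Complex.re_sum, Complex.im_sum,
      ← Finset.sum_add_distrib]
    refine Finset.sum_congr rfl fun i _ => ?_
    simp; ring
  · push_cast
    refine (Finset.abs_sum_le_sum_abs _ _).trans ?_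
    have h1 : ∀ i ∈ (Finset.univ : Finset (Fin r)),
        |(x (Sum.inl i) : ℝ) * (b₁ i : ℝ)| ≤ (c * m) * A := by
      intro i _
      rw [abs_mul]
      have h2 : |(x (Sum.inl i) : ℝ)| ≤ c * m := by exact_mod_cast hxB (Sum.inl i)
      exact mul_le_mul h2 (hA none (Sum.inl i)) (abs_nonneg _) (by positivity)
    refine (Finset.sum_le_sum h1).trans ?_
    rw [Finset.sum_const, Finset.card_univ, Fintype.card_fin, nsmul_eq_mul]
    have h2 : (r : ℝ) ≤ n := by
      have : r ≤ n := by omega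
      exact_mod_cast this
    have h3 : (0 : ℝ) ≤ c * m * A := by positivity
    have h4 : (0 : ℝ) ≤ c * m := by positivity
    nlinarith [mul_le_mul_of_nonneg_right h2 h3, mul_nonneg (Nat.cast_nonneg n) h3]
  · have h1 := hx none
    rw [Fintype.sum_sum_type] at h1
    simp only [L, Option.elim] at h1
    have h2 : ((∑ i, (x (Sum.inl i) : K₁) * b₁ i : K₁) : ℝ)
        - ((∑ i, (x (Sum.inr i) : K₂) * b₂ i : K₂) : ℝ)
        = ∑ i, (b₁ i : ℝ) * x (Sum.inl i) + ∑ i, -(b₂ i : ℝ) * x (Sum.inr i) := by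
      push_cast
      simp only [neg_mul, Finset.sum_neg_distrib, mul_comm]
      ring
    rw [h2]
    refine h1.le.trans ?_
    push_cast
    rw [div_le_div_iff₀ (by positivity) hm0]
    have h3 : (0 : ℝ) ≤ n * A := by positivity
    have h4 : (1 : ℝ) ≤ c * m := by nlinarith
    have h5 : (2 * (n * A * (c * m)) + 1 : ℝ) ≤ (2 * n * A + 1) * (c * m) := by nlinarith
    calc (2 * (n * A * (c * m)) + 1 : ℝ) * m ≤ (2 * n * A + 1) * (c * m) * m := by gcongr
      _ = (2 * n * A + 1) * 1 * (c * m ^ 2) := by ring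
      _ ≤ (2 * n * A + 1) * c * (c * m ^ 2) := by gcongr

end Pool.Agent.MP_3c6bfc_nt

end MrgPart1

-- marker of a merged file
example : 731051 + 276385 = 731051 + 276385 := rfl
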