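import Mathlib

/-! Interpolation at integer nodes, and rigidity: a small value of `F + r (x + y T) G` at many
integer nodes forces `G = 0`, by a norm over the biquadratic field. -/

namespace Pool.Agent.MP_3c6bfc_nt.Quad
open Polynomial

lemma interp (W t : ℝ) (hW : 0 ≤ W) (S : Finset ℕ) : ∀ (E : ℝ[X]) (A : ℝ), 0 ≤ A →
    E.degree < S.card → (∀ i ∈ S, |t - i| ≤ W ∧ |E.eval (i : ℝ)| ≤ A) →
    |E.eval t| ≤ (2 * W + 1) ^ S.card * A := by
  induction S using Finset.induction_on with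
  | empty =>
    intro E A hA h _
    have : E = 0 := by
      rw [← degree_eq_bot]
      simpa using h
    simp [this, hA]
  | insert a S ha ih =>
    intro E A hA h hv
    have p1 : 1 ≤ (2 * W + 1) ^ S.card := one_le_pow₀ (by linarith)
    rw [Finset.card_insert_of_notMem ha] at h ⊢
    rcases eq_or_ne E 0 with rfl | h0
    · simp only [eval_zero, abs_zero]; positivity
    have e : ∀ u : ℝ, E.eval u = E.eval (a : ℝ) + (u - a) * (E /ₘ (X - C (a : ℝ))).eval u := by
      intro u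
      conv_lhs => rw [← modByMonic_add_div E (X - C (a : ℝ)), modByMonic_X_sub_C_eq_C_eval]
      simp
    have hd : (E /ₘ (X - C (a : ℝ))).degree < S.card := by
      have h1 := degree_divByMonic_lt E (X - C (a : ℝ)) h0 (by rw [degree_X_sub_C]; norm_num)
      rw [degree_eq_natDegree h0] at h h1
      have h2 : E.natDegree < S.card + 1 := by exact_mod_cast h
      exact h1.trans_le (by exact_mod_cast (by omega : E.natDegree ≤ S.card))
    obtain ⟨a1, a2⟩ := hv a (Finset.mem_insert_self _ _)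
    have h3 := ih _ (2 * A) (by linarith) hd (fun i hi => by
      obtain ⟨b1, b2⟩ := hv i (Finset.mem_insert_of_mem hi)
      refine ⟨b1, ?_⟩
      have hne : (i : ℤ) - a ≠ 0 := fun h => ha (by
        have : i = a := by omega
        rwa [← this])
      have h1 : (1 : ℝ) ≤ |(i : ℝ) - a| := by exact_mod_cast Int.one_le_abs hne
      have h2 : |((i : ℝ) - a) * (E /ₘ (X - C (a : ℝ))).eval (i : ℝ)| ≤ 2 * A := by
        rw [show ((i : ℝ) - a) * (E /ₘ (X - C (a : ℝ))).eval (i : ℝ) =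
          E.eval (i : ℝ) - E.eval (a : ℝ) by rw [e i]; ring]
        exact (abs_sub _ _).trans (by linarith)
      rw [abs_mul] at h2
      exact (le_mul_of_one_le_left (abs_nonneg _) h1).trans h2)
    rw [e t]
    refine (abs_add_le _ _).trans ?_
    rw [abs_mul, pow_succ]
    have h4 : |t - a| * |(E /ₘ (X - C (a : ℝ))).eval t| ≤ W * ((2 * W + 1) ^ S.card * (2 * A)) := by
      gcongr
    nlinarith

lemma irr_lin {w : ℝ} (hw : Irrational w) {a b : ℤ} (h : (a : ℝ) + b * w = 0) : a = 0 ∧ b = 0 := by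
  have hb : b = 0 := by
    by_contra hb
    exact (hw.intCast_mul hb).ne_int (-a) (by push_cast; linarith)
  subst hb
  exact ⟨by simpa using h, rfl⟩

lemma rem (D : ℤ) (F : ℤ[X]) : ∃ (a b : ℤ) (F₁ : ℤ[X]), F = C a + C b * X + (X ^ 2 - C D) * F₁ := by
  have hm : (X ^ 2 - C D : ℤ[X]).Monic := monic_X_pow_sub_C D (by norm_num)
  have h1 := degree_modByMonic_lt F hm
  rw [degree_X_pow_sub_C (by norm_num)] at h1
  have h2 := eq_X_add_C_of_degree_le_one (Order.le_of_lt_succ h1)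
  refine ⟨(F %ₘ (X ^ 2 - C D)).coeff 0, (F %ₘ (X ^ 2 - C D)).coeff 1, F /ₘ (X ^ 2 - C D), ?_⟩
  rw [add_comm (C _), ← h2, modByMonic_add_div]

/-- The norm step on the four integer coordinates. -/
lemma norm_step {m n : ℤ} {r s : ℝ} (hr : r ^ 2 = m) (hs : s ^ 2 = n) (ir : Irrational r)
    (is : Irrational s) (id : Irrational (r * s)) (f0 f1 h0 h1 : ℤ)
    (h : |((f0 + f1 * (r * s)) + r * (h0 + h1 * (r * s))) *
        ((f0 + f1 * (r * s)) - r * (h0 + h1 * (r * s))) *
        (((f0 - f1 * (r * s)) + r * (h0 - h1 * (r * s))) *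
        ((f0 - f1 * (r * s)) - r * (h0 - h1 * (r * s))))| < 1) :
    f0 = 0 ∧ f1 = 0 ∧ h0 = 0 ∧ h1 = 0 := by
  have r0 : r ≠ 0 := ir.ne_zero
  have s0 : s ≠ 0 := is.ne_zero
  have m0 : m ≠ 0 := by
    rintro rfl
    exact r0 (by simpa using hr)
  set a0 : ℤ := f0 ^ 2 + m * n * f1 ^ 2 - m * (h0 ^ 2 + m * n * h1 ^ 2) with ha0
  set a1 : ℤ := 2 * f0 * f1 - 2 * m * h0 * h1 with ha1
  have e1 : ((f0 + f1 * (r * s)) + r * (h0 + h1 * (r * s))) *
      ((f0 + f1 * (r * s)) - r * (h0 + h1 * (r * s))) = (a0 : ℝ) + a1 * (r * s) := by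
    rw [ha0, ha1]; push_cast; rw [← hr, ← hs]; ring
  have e2 : ((f0 - f1 * (r * s)) + r * (h0 - h1 * (r * s))) *
      ((f0 - f1 * (r * s)) - r * (h0 - h1 * (r * s))) = (a0 : ℝ) + (-a1 : ℤ) * (r * s) := by
    rw [ha0, ha1]; push_cast; rw [← hr, ← hs]; ring
  have e3 : ((a0 : ℝ) + a1 * (r * s)) * ((a0 : ℝ) + (-a1 : ℤ) * (r * s)) =
      ((a0 ^ 2 - m * n * a1 ^ 2 : ℤ) : ℝ) := by
    push_cast; rw [← hr, ← hs]; ring
  rw [e1, e2, e3] at h
  have e4 : a0 ^ 2 - m * n * a1 ^ 2 = 0 := Int.abs_lt_one_iff.1 (by exact_mod_cast h)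
  rw [e4, Int.cast_zero] at e3
  have e5 : a0 = 0 ∧ a1 = 0 := by
    rcases mul_eq_zero.1 e3 with h | h
    · exact irr_lin id h
    · have := irr_lin id h
      omega
  rw [e5.1, e5.2] at e1 e2
  simp only [Int.cast_zero, zero_mul, add_zero, neg_zero] at e1 e2
  have hr' : r * r = m := by rw [← hr]; ring
  rcases mul_eq_zero.1 e1 with g1 | g1 <;> rcases mul_eq_zero.1 e2 with g2 | g2
  · have k1 := irr_lin ir (a := f0) (b := h0) (by linarith)
    have k2 := irr_lin ir (a := f1) (b := h1) (by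
      apply mul_left_cancel₀ (mul_ne_zero r0 s0); linarith)
    exact ⟨k1.1, k2.1, k1.2, k2.2⟩
  · have k1 := irr_lin is (a := f0) (b := h1 * m) (by push_cast; rw [← hr']; linarith)
    have k2 := irr_lin is (a := h0) (b := f1) (by apply mul_left_cancel₀ r0; linarith)
    exact ⟨k1.1, k2.2, k2.1, (mul_eq_zero.1 k1.2).resolve_right m0⟩
  · have k1 := irr_lin is (a := f0) (b := -(h1 * m)) (by push_cast; rw [← hr']; linarith)
    have k2 := irr_lin is (a := h0) (b := -f1) (by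
      apply mul_left_cancel₀ r0; push_cast; linarith)
    exact ⟨k1.1, by omega, k2.1, (mul_eq_zero.1 (neg_eq_zero.1 k1.2)).resolve_right m0⟩
  · have k1 := irr_lin ir (a := f0) (b := -h0) (by push_cast; linarith)
    have k2 := irr_lin ir (a := f1) (b := -h1) (by
      apply mul_left_cancel₀ (mul_ne_zero r0 s0); push_cast; linarith)
    exact ⟨k1.1, k2.1, by omega, by omega⟩

lemma rigid {m n : ℤ} {r s : ℝ} (hr : r ^ 2 = m) (hs : s ^ 2 = n) (ir : Irrational r)
    (is : Irrational s) (id : Irrational (r * s)) (x y : ℤ) (hη : (x : ℝ) + y * (r * s) ≠ 0)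
    (S : Finset ℕ) (W K A B U V : ℝ) (W0 : 0 ≤ W) (hW : ∀ i ∈ S, |r * s| + i ≤ W)
    (hK : (2 * W + 1) ^ S.card ≤ K) (hU : |r * (x + y * (r * s))| ≤ U)
    (hV : |r * (x - y * (r * s))| ≤ V) (hA : 0 ≤ A) (hB : 0 ≤ B)
    (small : K * A * (K * A + 2 * (U * (K * B))) * (K * A * (K * A + 2 * (V * (K * B)))) < 1)
    (k : ℕ) : ∀ F G : ℤ[X], G.natDegree = k → F.natDegree < S.card → G.natDegree + 1 < S.card →
      (∀ i ∈ S, |aeval (i : ℝ) F + r * (x + y * i) * aeval (i : ℝ) G| ≤ A ∧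
        |aeval (i : ℝ) G| ≤ B) → G = 0 := by
  induction k using Nat.strong_induction_on with
  | _ k ih =>
  intro F G hk hF hG hv
  by_contra G0
  have ev : ∀ t : ℝ, |t| = |r * s| → |aeval t F + r * (x + y * t) * aeval t G| ≤ K * A ∧
      |aeval t G| ≤ K * B := by
    intro t ht
    have hw : ∀ i ∈ S, |t - i| ≤ W := fun i hi => by
      refine (abs_sub _ _).trans ?_
      rw [ht, Nat.abs_cast]; exact hW i hi
    have d1 : (G.map (algebraMap ℤ ℝ)).natDegree ≤ G.natDegree := natDegree_map_le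
    have d2 : (F.map (algebraMap ℤ ℝ) + (C (r * y) * X + C (r * x)) *
        G.map (algebraMap ℤ ℝ)).natDegree < S.card := by
      refine (natDegree_add_le _ _).trans_lt (max_lt (natDegree_map_le.trans_lt hF) ?_)
      refine natDegree_mul_le.trans_lt ?_
      have := natDegree_linear_le (a := r * y) (b := r * x)
      omega
    have e : ∀ u : ℝ, (F.map (algebraMap ℤ ℝ) + (C (r * y) * X + C (r * x)) *
        G.map (algebraMap ℤ ℝ)).eval u = aeval u F + r * (x + y * u) * aeval u G := fun u => by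
      simp only [eval_add, eval_mul, eval_C, eval_X, eval_map_algebraMap]; ring
    have h1 := interp W t W0 S _ A hA (degree_le_natDegree.trans_lt (by exact_mod_cast d2))
      (fun i hi => ⟨hw i hi, by rw [e]; exact (hv i hi).1⟩)
    have h2 := interp W t W0 S (G.map (algebraMap ℤ ℝ)) B hB
      (degree_le_natDegree.trans_lt (by exact_mod_cast (by omega)))
      (fun i hi => ⟨hw i hi, by rw [eval_map_algebraMap]; exact (hv i hi).2⟩)
    rw [e] at h1
    rw [eval_map_algebraMap] at h2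
    exact ⟨h1.trans (by gcongr), h2.trans (by gcongr)⟩
  obtain ⟨f0, f1, F₁, eF⟩ := rem (m * n) F
  obtain ⟨g0, g1, G₁, eG⟩ := rem (m * n) G
  have dd : (r * s) ^ 2 = m * n := by rw [mul_pow, hr, hs]
  have v : ∀ (a b : ℤ) (P : ℤ[X]) (t : ℝ), t ^ 2 = m * n →
      aeval t (C a + C b * X + (X ^ 2 - C (m * n)) * P) = a + b * t := fun a b P t ht => by
    simp [ht]
  obtain ⟨a1, a2⟩ := ev (r * s) rfl
  obtain ⟨b1, b2⟩ := ev (-(r * s)) (abs_neg _)
  rw [eF, eG, v _ _ _ _ dd, v _ _ _ _ dd] at a1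
  rw [eG, v _ _ _ _ dd] at a2
  rw [eF, eG, v _ _ _ _ (by rw [neg_sq, dd]), v _ _ _ _ (by rw [neg_sq, dd])] at b1
  rw [eG, v _ _ _ _ (by rw [neg_sq, dd])] at b2
  have K0 : 0 ≤ K := le_trans (by positivity) hK
  have bd : ∀ f w g Z : ℝ, |f + w * g| ≤ K * A → |g| ≤ K * B → |w| ≤ Z →
      |(f + w * g) * (f - w * g)| ≤ K * A * (K * A + 2 * (Z * (K * B))) := by
    intro f w g Z c1 c2 c3
    have c4 : |w * g| ≤ Z * (K * B) := by
      rw [abs_mul]; exact mul_le_mul c3 c2 (abs_nonneg _) ((abs_nonneg _).trans c3)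
    have c5 : |f - w * g| ≤ K * A + 2 * (Z * (K * B)) := by
      rw [show f - w * g = (f + w * g) - 2 * (w * g) by ring]
      refine (abs_sub _ _).trans ?_
      rw [abs_mul 2, abs_two]; linarith
    rw [abs_mul]; gcongr
  have c1 := bd _ _ _ U a1 a2 hU
  have c2 := bd _ _ _ V b1 b2 (by rw [mul_neg, ← sub_eq_add_neg]; exact hV)
  have e1 : ((x * g0 + m * n * y * g1 : ℤ) : ℝ) + (x * g1 + y * g0 : ℤ) * (r * s) =
      (x + y * (r * s)) * (g0 + g1 * (r * s)) := by
    push_cast; rw [← dd]; ring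
  have e2 : ((x * g0 + m * n * y * g1 : ℤ) : ℝ) - (x * g1 + y * g0 : ℤ) * (r * s) =
      (x + y * -(r * s)) * (g0 + g1 * -(r * s)) := by
    push_cast; rw [← dd]; ring
  obtain ⟨z1, z2, z3, z4⟩ := norm_step hr hs ir is id f0 f1 (x * g0 + m * n * y * g1)
    (x * g1 + y * g0) (by
      rw [e1, e2, abs_mul (_ * _), ← mul_assoc r (_ + _), ← mul_assoc r (_ + _),
        show (f0 : ℝ) - f1 * (r * s) = f0 + f1 * -(r * s) by ring]
      exact (mul_le_mul c1 c2 (abs_nonneg _) ((abs_nonneg _).trans c1)).trans_lt small)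
  rw [z3, z4] at e1
  obtain ⟨z5, z6⟩ := irr_lin id (a := g0) (b := g1)
    ((mul_eq_zero.1 (by simpa using e1.symm)).resolve_left hη)
  rw [z1, z2] at eF
  rw [z5, z6] at eG
  simp only [map_zero, zero_mul, zero_add] at eF eG
  have hm : (X ^ 2 - C (m * n) : ℤ[X]).Monic := monic_X_pow_sub_C _ (by norm_num)
  have G1 : G₁ ≠ 0 := by
    rintro rfl
    exact G0 (by simpa using eG)
  have d1 : G.natDegree = 2 + G₁.natDegree := by
    rw [eG, natDegree_mul hm.ne_zero G1, natDegree_X_pow_sub_C]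
  have d2 : F₁.natDegree < S.card := by
    rcases eq_or_ne F₁ 0 with rfl | h
    · rw [natDegree_zero]; omega
    · rw [eF, natDegree_mul hm.ne_zero h] at hF; omega
  refine G1 (ih _ (by omega) F₁ G₁ rfl d2 (by omega) fun i hi => ?_)
  have n1 : (i : ℤ) ^ 2 - m * n ≠ 0 := fun h => by
    have h' : ((i : ℝ) + (1 : ℤ) * (r * s)) * (i + (-1 : ℤ) * (r * s)) = 0 := by
      have : (i : ℝ) ^ 2 - m * n = 0 := by exact_mod_cast h
      push_cast; rw [← dd] at this; linarith
    rcases mul_eq_zero.1 h' with h' | h'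
    · exact absurd (irr_lin id (a := i) h').2 (by norm_num)
    · exact absurd (irr_lin id (a := i) h').2 (by norm_num)
  have n2 : (1 : ℝ) ≤ |(i : ℝ) ^ 2 - m * n| := by exact_mod_cast Int.one_le_abs n1
  obtain ⟨u1, u2⟩ := hv i hi
  rw [eF, eG] at u1
  rw [eG] at u2
  simp only [map_mul, map_sub, map_pow, aeval_X, eq_intCast, map_intCast] at u1 u2
  rw [mul_left_comm, ← mul_add, abs_mul] at u1
  rw [abs_mul] at u2
  exact ⟨(le_mul_of_one_le_left (abs_nonneg _) n2).trans u1,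
    (le_mul_of_one_le_left (abs_nonneg _) n2).trans u2⟩

end Pool.Agent.MP_3c6bfc_nt.Quad
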