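import Pool.Agent.MP_3c6bfc_nt.QuadA

/-! The pigeonhole step, and the existence of a node with a large Dirichlet denominator. -/

namespace Pool.Agent.MP_3c6bfc_nt.Quad
open Polynomial

lemma pigeon {ι κ : Type} [Fintype ι] [Fintype κ] [DecidableEq κ] (y : ι → κ → ℝ) (N : ℕ)
    (h0 : 0 < N) (hN : N ^ Fintype.card κ < Fintype.card ι) :
    ∃ (s t : ι) (z : κ → ℤ), s ≠ t ∧ ∀ j, |y s j - y t j - z j| * N ≤ 1 := by
  have N0 : (0 : ℝ) < N := by exact_mod_cast h0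
  have hb : ∀ s j, ⌊Int.fract (y s j) * N⌋₊ < N := fun s j => by
    rw [Nat.floor_lt (mul_nonneg (Int.fract_nonneg _) N0.le)]
    exact mul_lt_of_lt_one_left N0 (Int.fract_lt_one _)
  obtain ⟨s, t, hst, h⟩ := Fintype.exists_ne_map_eq_of_card_lt
    (fun s j => (⟨_, hb s j⟩ : Fin N)) (by simpa using hN)
  refine ⟨s, t, fun j => ⌊y s j⌋ - ⌊y t j⌋, hst, fun j => ?_⟩
  have h1 : ⌊Int.fract (y s j) * N⌋₊ = ⌊Int.fract (y t j) * N⌋₊ := congrArg Fin.val (congrFun h j)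
  have a1 := Nat.floor_le (mul_nonneg (Int.fract_nonneg (y s j)) N0.le)
  have a2 := Nat.floor_le (mul_nonneg (Int.fract_nonneg (y t j)) N0.le)
  have b1 := Nat.lt_floor_add_one (Int.fract (y s j) * N)
  have b2 := Nat.lt_floor_add_one (Int.fract (y t j) * N)
  rw [h1] at a1 b1
  rw [← abs_of_pos N0, ← abs_mul, abs_le]
  have e : (y s j - y t j - ((⌊y s j⌋ - ⌊y t j⌋ : ℤ) : ℝ)) * N =
      Int.fract (y s j) * N - Int.fract (y t j) * N := by
    simp only [Int.fract]; push_cast; ring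
  rw [e]
  constructor <;> linarith

lemma eval_le (E : ℝ[X]) (k : ℕ) (c R t : ℝ) (hk : E.natDegree < k) (hc : ∀ j < k, |E.coeff j| ≤ c)
    (hR : 1 ≤ R) (ht : |t| ≤ R) : |E.eval t| ≤ k * R ^ k * c := by
  rw [eval_eq_sum_range' hk]
  refine (Finset.abs_sum_le_sum_abs _ _).trans ?_
  have : ∀ j ∈ Finset.range k, |E.coeff j * t ^ j| ≤ R ^ k * c := fun j hj => by
    rw [Finset.mem_range] at hj
    have h1 := hc j hj
    have h2 : |t| ^ j ≤ R ^ k :=
      (pow_le_pow_left₀ (abs_nonneg _) ht j).trans (pow_le_pow_right₀ hR hj.le)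
    rw [abs_mul, abs_pow, mul_comm]
    exact mul_le_mul h2 h1 (abs_nonneg _) (by positivity)
  refine (Finset.sum_le_card_nsmul _ _ _ this).trans (le_of_eq ?_)
  simp [mul_assoc]

lemma siegel (k N M : ℕ) (a b R : ℝ) (hR : 1 ≤ R) (hM : 0 < M)
    (h : M ^ (k + 2) < (N + 1) ^ (k + 1)) :
    ∃ F G : ℤ[X], G ≠ 0 ∧ F.natDegree < k + 2 ∧ G.natDegree < k + 1 ∧ ∀ t : ℝ, |t| ≤ R →
      |aeval t F + (a + b * t) * aeval t G| * M ≤ (k + 2) * R ^ (k + 2) ∧
      |aeval t G| ≤ (k + 2) * R ^ (k + 2) * N := by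
  have M0 : (0 : ℝ) < M := by exact_mod_cast hM
  obtain ⟨g, g', z, hne, hz⟩ := pigeon (ι := Fin (k + 1) → Fin (N + 1)) (κ := Fin (k + 2))
    (fun g j => ((C b * X + C a) *
      (ofFn (k + 1) fun i => ((g i : ℕ) : ℤ)).map (algebraMap ℤ ℝ)).coeff j) M hM (by simpa using h)
  set G : ℤ[X] := ofFn (k + 1) (fun i => ((g i : ℕ) : ℤ)) - ofFn (k + 1) fun i => ((g' i : ℕ) : ℤ)
    with hG
  have dG : G.natDegree < k + 1 := by
    rw [hG, ← map_sub]; exact ofFn_natDegree_lt (by omega) _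
  have dF : (-ofFn (k + 2) z).natDegree < k + 2 := by
    rw [natDegree_neg]; exact ofFn_natDegree_lt (by omega) _
  refine ⟨-ofFn (k + 2) z, G, fun h0 => hne ?_, dF, dG, fun t ht => ⟨?_, ?_⟩⟩
  · have := injective_ofFn _ (sub_eq_zero.1 h0)
    funext i
    exact Fin.ext (by exact_mod_cast congrFun this i)
  · have d2 : ((-ofFn (k + 2) z).map (algebraMap ℤ ℝ) + (C b * X + C a) *
        G.map (algebraMap ℤ ℝ)).natDegree < k + 2 := by
      refine (natDegree_add_le _ _).trans_lt (max_lt (natDegree_map_le.trans_lt dF) ?_)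
      refine natDegree_mul_le.trans_lt ?_
      have := natDegree_linear_le (a := b) (b := a)
      have : (G.map (algebraMap ℤ ℝ)).natDegree ≤ G.natDegree := natDegree_map_le
      omega
    have h1 := eval_le _ (k + 2) (1 / M) R t d2 (fun j hj => by
      have := hz ⟨j, hj⟩
      rw [le_div_iff₀ M0]
      refine le_trans (le_of_eq ?_) this
      congr 2
      rw [hG, Polynomial.map_sub, mul_sub, coeff_add, coeff_sub, coeff_map, coeff_neg,
        ofFn_coeff_eq_val_of_lt _ hj]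
      simp only [eq_intCast, Int.cast_neg]
      ring) hR ht
    simp only [eval_add, eval_mul, eval_C, eval_X, eval_map_algebraMap] at h1
    rw [mul_one_div, le_div_iff₀ M0, add_comm (b * t)] at h1
    exact_mod_cast h1
  · have h1 := eval_le (G.map (algebraMap ℤ ℝ)) (k + 2) N R t
      (natDegree_map_le.trans_lt (by omega)) (fun j _ => by
        rw [coeff_map, hG, coeff_sub]
        rcases lt_or_ge j (k + 1) with hj | hj
        · rw [ofFn_coeff_eq_val_of_lt _ hj, ofFn_coeff_eq_val_of_lt _ hj]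
          have a1 := (g ⟨j, hj⟩).2
          have a2 := (g' ⟨j, hj⟩).2
          have : |((g ⟨j, hj⟩ : ℕ) : ℤ) - ((g' ⟨j, hj⟩ : ℕ) : ℤ)| ≤ N := by
            rw [abs_le]; omega
          rw [eq_intCast]
          exact_mod_cast this
        · rw [ofFn_coeff_eq_zero_of_ge _ hj, ofFn_coeff_eq_zero_of_ge _ hj]
          simp) hR ht
    rw [eval_map_algebraMap] at h1
    exact_mod_cast h1

lemma small_aux {Y Z B : ℝ} (hY : 3 ≤ Y) (hB : 1 ≤ B) (h : B * Y ^ 32 ≤ Z) :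
    Y * (Y ^ 6 / Z) * (Y * (Y ^ 6 / Z) + 2 * (Y * Z ^ 2 * (Y * (Y ^ 6 * B)))) *
      (Y * (Y ^ 6 / Z) * (Y * (Y ^ 6 / Z) + 2 * (Y / Z ^ 2 * (Y * (Y ^ 6 * B))))) < 1 := by
  have Y1 : 1 ≤ Y := by linarith
  have h1 : B * Y ≤ Z := le_trans (by gcongr; exact le_self_pow₀ Y1 (by norm_num)) h
  have Z1 : 1 ≤ Z := (one_le_mul_of_one_le_of_one_le hB Y1).trans h1
  have t1 : Y * (Y ^ 6 / Z) ≤ Y * Z ^ 2 * (Y * (Y ^ 6 * B)) := by
    calc Y * (Y ^ 6 / Z) ≤ Y * Y ^ 6 := by gcongr; exact div_le_self (by positivity) Z1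
      _ = Y * 1 * (1 * (Y ^ 6 * 1)) := by ring
      _ ≤ _ := by gcongr; exact one_le_pow₀ Z1
  have t2 : Y / Z ^ 2 * (Y * (Y ^ 6 * B)) ≤ Y * (Y ^ 6 / Z) := by
    calc _ = Y * (Y ^ 6 / Z) * (B * Y / Z) := by field_simp
      _ ≤ Y * (Y ^ 6 / Z) * 1 := by gcongr; exact (div_le_one (by positivity)).2 h1
      _ = _ := mul_one _
  calc _ ≤ Y * (Y ^ 6 / Z) * (3 * (Y * Z ^ 2 * (Y * (Y ^ 6 * B)))) *
        (Y * (Y ^ 6 / Z) * (3 * (Y * (Y ^ 6 / Z)))) := by gcongr <;> linarith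
    _ = 9 / Y ^ 3 * (B * Y ^ 32 / Z) := by field_simp; ring
    _ ≤ 9 / 3 ^ 3 * 1 := by gcongr; exact (div_le_one (by positivity)).2 h
    _ < 1 := by norm_num

/-- Among the first `T (T + 1) + 1` nodes one has a large Dirichlet denominator. -/
lemma large_den {m n : ℤ} {r s : ℝ} (hr : r ^ 2 = m) (hs : s ^ 2 = n) (ir : Irrational r)
    (is : Irrational s) (id : Irrational (r * s)) (x y : ℤ) (hη : (x : ℝ) + y * (r * s) ≠ 0)
    (T L : ℕ) (hL : L = T * (T + 1) + 1) (Y : ℝ) (hY : 3 ≤ Y)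
    (c1 : (T + 2 : ℝ) * L ^ (T + 2) ≤ Y) (c2 : (2 * (|r * s| + L) + 1) ^ L ≤ Y)
    (hU : |r * (x + y * (r * s))| ≤ Y * (Y ^ T) ^ 2) (hV : |r * (x - y * (r * s))| ≤ Y / (Y ^ T) ^ 2)
    (p q : ℕ → ℤ) (hq : ∀ i, 1 ≤ q i) (hp : ∀ i : ℕ, |q i * (r * (x + y * i)) - p i| * Y ^ T ≤ 1) :
    ∃ i < L, Y ^ T ≤ q i * Y ^ 32 := by
  classical
  by_contra hcon
  push Not at hcon
  have Y1 : 1 < Y := by linarith
  have hb : ∀ i, ∃ b : ℕ, Y ^ b ≤ q i ∧ (q i : ℝ) < Y ^ (b + 1) := fun i =>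
    exists_nat_pow_near (by exact_mod_cast hq i) Y1
  choose β b1 b2 using hb
  have b3 : ∀ i < L, Y ^ β i * Y ^ 32 ≤ Y ^ T := fun i hi =>
    le_trans (by gcongr; exact b1 i) (hcon i hi).le
  have b4 : ∀ i < L, β i + 32 ≤ T := fun i hi => by
    have := b3 i hi
    rwa [← pow_add, pow_le_pow_iff_right₀ Y1] at this
  obtain ⟨b, -, hS⟩ := Finset.exists_lt_card_fiber_of_mul_lt_card_of_maps_to
    (s := Finset.range L) (t := Finset.range T) (f := β) (n := T + 1)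
    (fun i hi => Finset.mem_range.2 (by have := b4 i (Finset.mem_range.1 hi); omega))
    (by simp [hL])
  set S := (Finset.range L).filter fun i => β i = b with hSd
  have mS : ∀ i ∈ S, i < L ∧ β i = b := fun i hi => by simpa [hSd] using hi
  have cS : S.card ≤ L := (Finset.card_filter_le _ _).trans (by simp)
  obtain ⟨i₀, hi₀⟩ := Finset.card_pos.1 (by omega : 0 < S.card)
  have bT : b + 32 ≤ T := by have := b4 i₀ (mS i₀ hi₀).1; rwa [(mS i₀ hi₀).2] at this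
  have bZ : Y ^ b * Y ^ 32 ≤ Y ^ T := by rw [← pow_add]; exact pow_le_pow_right₀ Y1.le bT
  have L1 : (1 : ℝ) ≤ L := by exact_mod_cast (by omega : 1 ≤ L)
  have B1 : 1 ≤ Y ^ b := one_le_pow₀ Y1.le
  have M1 : Y ^ (b + 3) ≤ (⌈Y ^ (b + 3)⌉₊ : ℝ) := Nat.le_ceil _
  have M2 : (⌈Y ^ (b + 3)⌉₊ : ℝ) ≤ Y ^ (b + 4) := by
    have h1 := Nat.ceil_lt_add_one (a := Y ^ (b + 3)) (by positivity)
    have h2 : 1 ≤ Y ^ (b + 3) := one_le_pow₀ Y1.le
    rw [pow_succ Y (b + 3)]; nlinarith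
  obtain ⟨F, G, G0, dF, dG, hv⟩ := siegel T ⌊Y ^ (b + 5)⌋₊ ⌈Y ^ (b + 3)⌉₊ (r * x) (r * y) L L1
    (Nat.ceil_pos.2 (by positivity)) (by
      have h1 := Nat.lt_floor_add_one (Y ^ (b + 5))
      have : (⌈Y ^ (b + 3)⌉₊ : ℝ) ^ (T + 2) < (⌊Y ^ (b + 5)⌋₊ + 1 : ℝ) ^ (T + 1) := by
        calc _ ≤ (Y ^ (b + 4)) ^ (T + 2) := by gcongr
          _ ≤ (Y ^ (b + 5)) ^ (T + 1) := by
            rw [← pow_mul, ← pow_mul]
            exact pow_le_pow_right₀ Y1.le (by nlinarith)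
          _ < _ := by gcongr
      exact_mod_cast this)
  have Z0 : 0 < Y ^ T := by positivity
  refine G0 (rigid hr hs ir is id x y hη S (|r * s| + L) Y (Y ^ 6 / Y ^ T) (Y ^ 6 * Y ^ b) _ _
    (by positivity) (fun i hi => by gcongr; exact (mS i hi).1.le)
    ((pow_le_pow_right₀ (by linarith [abs_nonneg (r * s)]) cS).trans c2) hU hV (by positivity)
    (by positivity) (small_aux hY B1 bZ) _ F G rfl (by omega) (by omega) fun i hi => ?_)
  obtain ⟨iL, ib⟩ := mS i hi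
  obtain ⟨v1, v2⟩ := hv i (by rw [Nat.abs_cast]; exact_mod_cast iL.le)
  rw [mul_assoc r, ← mul_add] at v1
  have v3 : |aeval (i : ℝ) G| ≤ Y ^ 6 * Y ^ b := by
    have := Nat.floor_le (a := Y ^ (b + 5)) (by positivity)
    calc _ ≤ _ := v2
      _ ≤ Y * Y ^ (b + 5) := by gcongr
      _ = _ := by ring
  refine ⟨?_, v3⟩
  have q1 := b1 i
  have q2 := b2 i
  have p1 := hp i
  rw [ib] at q1 q2
  obtain ⟨f, hf⟩ : ∃ f : ℤ, aeval (i : ℝ) F = f :=
    ⟨F.eval (i : ℤ), by simpa using aeval_algebraMap_apply ℝ (i : ℤ) F⟩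
  obtain ⟨g, hg⟩ : ∃ g : ℤ, aeval (i : ℝ) G = g :=
    ⟨G.eval (i : ℤ), by simpa using aeval_algebraMap_apply ℝ (i : ℤ) G⟩
  rw [hf, hg] at v1
  rw [hg] at v3
  rw [hf, hg]
  set w := r * (x + y * i)
  set E := f + w * g with hE
  have q0 : (0 : ℝ) < q i := by linarith
  have E0 := abs_nonneg E
  have w1 : |q i * E| * Y ≤ 1 := by
    rw [abs_mul, abs_of_pos q0]
    have : |E| * Y ^ (b + 3) ≤ Y := le_trans (by gcongr) (v1.trans c1)
    refine le_of_mul_le_mul_right ?_ (by linarith : 0 < Y)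
    calc q i * |E| * Y * Y ≤ Y ^ (b + 1) * |E| * Y * Y := by gcongr
      _ = |E| * Y ^ (b + 3) := by ring
      _ ≤ _ := by linarith
  have w2 : |(q i * w - p i) * g| * Y ^ T ≤ Y ^ 6 * Y ^ b := by
    rw [abs_mul, mul_right_comm]
    calc _ ≤ 1 * (Y ^ 6 * Y ^ b) := by gcongr
      _ = _ := one_mul _
  have w3 : |(q i * w - p i) * g| * Y ≤ 1 := by
    refine le_of_mul_le_mul_right ?_ (by positivity : 0 < Y ^ 6 * Y ^ b)
    have : Y ^ 7 ≤ Y ^ 32 := pow_le_pow_right₀ Y1.le (by norm_num)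
    calc _ = |(q i * w - p i) * g| * (Y ^ b * Y ^ 7) := by ring
      _ ≤ |(q i * w - p i) * g| * Y ^ T := by gcongr; exact le_trans (by gcongr) bZ
      _ ≤ _ := by linarith
  have e : ((q i * f + p i * g : ℤ) : ℝ) = q i * E - (q i * w - p i) * g := by
    rw [hE]; push_cast; ring
  have z : q i * f + p i * g = 0 := by
    have h1 : |((q i * f + p i * g : ℤ) : ℝ)| < 1 := by
      rw [e]
      refine (abs_sub _ _).trans_lt ?_
      nlinarith [abs_nonneg (q i * E), abs_nonneg ((q i * w - p i) * g)]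
    exact Int.abs_lt_one_iff.1 (by exact_mod_cast h1)
  rw [z, Int.cast_zero, eq_comm, sub_eq_zero] at e
  rw [← e, abs_mul, abs_of_pos q0] at w2
  rw [le_div_iff₀ Z0]
  refine le_of_mul_le_mul_right ?_ (by positivity : 0 < Y ^ b)
  calc |E| * Y ^ T * Y ^ b ≤ |E| * Y ^ T * q i := by gcongr
    _ = q i * |E| * Y ^ T := by ring
    _ ≤ _ := w2

end Pool.Agent.MP_3c6bfc_nt.Quad
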