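import Pool.Agent.MP_3c6bfc_nt.QuadB

/-! Real quadratic fields: generators, heights, and the inequality of Liouville. -/

namespace Pool.Agent.MP_3c6bfc_nt.Quad
open Polynomial IntermediateField Module

/-- The largest modulus of a coefficient. -/
def hgt (P : ℤ[X]) : ℕ := P.support.sup fun i => (P.coeff i).natAbs

lemma coeff_le_hgt (P : ℤ[X]) (i : ℕ) : |(P.coeff i : ℝ)| ≤ hgt P := by
  have : (P.coeff i).natAbs ≤ hgt P := by
    by_cases h : i ∈ P.support
    · exact Finset.le_sup (f := fun i => (P.coeff i).natAbs) h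
    · simp [notMem_support_iff.1 h]
  rw [← Int.cast_abs, ← Int.natCast_natAbs]
  exact_mod_cast this

lemma hgt_le (P : ℤ[X]) (H : ℝ) (H0 : 0 ≤ H) (h : ∀ i, |(P.coeff i : ℝ)| ≤ H) : (hgt P : ℝ) ≤ H := by
  rw [← Nat.le_floor_iff H0]
  refine Finset.sup_le fun i _ => (Nat.le_floor_iff H0).2 ?_
  have := h i
  rwa [← Int.cast_abs, ← Int.natCast_natAbs, Int.cast_natCast] at this

variable {K : IntermediateField ℚ ℝ}

lemma gen (hK : finrank ℚ K = 2) {α : ℝ} (h : α ∈ K) (hi : Irrational α) :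
    adjoin ℚ {α} = K ∧ (minpoly ℚ α).natDegree = 2 := by
  have : FiniteDimensional ℚ K := FiniteDimensional.of_finrank_pos (by omega)
  have int : IsIntegral ℚ α := (IsIntegral.of_finite ℚ (⟨α, h⟩ : K)).map K.val
  have h2 : 2 ≤ (minpoly ℚ α).natDegree := (minpoly.two_le_natDegree_iff int).2 hi
  have e : adjoin ℚ {α} = K :=
    eq_of_le_of_finrank_le (adjoin_simple_le_iff.2 h) (by rw [hK, adjoin.finrank int]; exact h2)
  exact ⟨e, by rw [← adjoin.finrank int, e, hK]⟩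

lemma irr_of_gen (hK : finrank ℚ K = 2) {α : ℝ} (h : adjoin ℚ {α} = K) : α ∈ K ∧ Irrational α := by
  refine ⟨h ▸ mem_adjoin_simple_self ℚ α, fun h1 => ?_⟩
  have : adjoin ℚ {α} = ⊥ := adjoin_simple_eq_bot_iff.2 (mem_bot.2 h1)
  rw [← h, this, IntermediateField.finrank_bot] at hK
  omega

lemma exists_sqrt (hK : finrank ℚ K = 2) :
    ∃ (m : ℤ) (r : ℝ), r ^ 2 = m ∧ Irrational r ∧ r ∈ K ∧ 1 ≤ r := by
  have : FiniteDimensional ℚ K := FiniteDimensional.of_finrank_pos (by omega)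
  have h1 : ¬ K ≤ ⊥ := fun h => by
    rw [le_bot_iff.1 h, IntermediateField.finrank_bot] at hK
    omega
  obtain ⟨θ, h2, h3⟩ := SetLike.not_le_iff_exists.1 h1
  have hi : Irrational θ := fun h => h3 (mem_bot.2 h)
  have int : IsIntegral ℚ θ := (IsIntegral.of_finite ℚ (⟨θ, h2⟩ : K)).map K.val
  have d := (gen hK h2 hi).2
  have e := minpoly.aeval ℚ θ
  have mo : (minpoly ℚ θ).coeff 2 = 1 := by rw [← d]; exact minpoly.monic int
  rw [aeval_eq_sum_range, d] at e
  simp only [Finset.sum_range_succ, Finset.range_zero, Finset.sum_empty, mo, Algebra.smul_def,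
    eq_ratCast] at e
  set b := (minpoly ℚ θ).coeff 1
  set c := (minpoly ℚ θ).coeff 0
  set Δ : ℚ := b ^ 2 - 4 * c with hΔ
  have e1 : (Δ.den : ℝ) * Δ = Δ.num := by exact_mod_cast Rat.den_mul_eq_num Δ
  have e2 : ((Δ.den : ℝ) * (2 * θ + b)) ^ 2 = ((Δ.den * Δ.num : ℤ) : ℝ) := by
    push_cast
    rw [← e1, hΔ]
    push_cast at e ⊢
    linear_combination 4 * ((b ^ 2 - 4 * c : ℚ).den : ℝ) ^ 2 * e
  have i2 : Irrational ((Δ.den : ℝ) * (2 * θ + b)) :=
    (((hi.natCast_mul (m := 2) (by norm_num)).add_ratCast b)).natCast_mul Δ.den_nz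
  have k2 : (Δ.den : ℝ) * (2 * θ + b) ∈ K :=
    mul_mem (_root_.natCast_mem K _)
      (add_mem (mul_mem (ofNat_mem K 2) h2) (SubfieldClass.ratCast_mem K b))
  set r := (Δ.den : ℝ) * (2 * θ + b)
  refine ⟨_, |r|, by rw [sq_abs, e2], ?_, ?_, ?_⟩
  · rcases abs_choice r with h | h <;> rw [h]
    exacts [i2, i2.neg]
  · rcases abs_choice r with h | h <;> rw [h]
    exacts [k2, neg_mem k2]
  · have h4 : (0 : ℝ) < ((Δ.den * Δ.num : ℤ) : ℝ) := by
      rw [← e2]; exact sq_pos_of_ne_zero i2.ne_zero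
    have h5 : (1 : ℝ) ≤ ((Δ.den * Δ.num : ℤ) : ℝ) := by
      exact_mod_cast (show (0 : ℤ) < _ by exact_mod_cast h4)
    rw [← one_le_sq_iff_one_le_abs, e2]; exact h5

/-- The image of a quadratic irrational under a unimodular substitution. -/
lemma mobius (hK : finrank ℚ K = 2) {ω : ℝ} (h : ω ∈ K) (hi : Irrational ω) (N D : ℤ) (D0 : 0 < D)
    (hN : D * ω ^ 2 = N) (p₁ q₁ p q : ℤ) (det : p * q₁ - p₁ * q = 1) (δ Λ : ℝ)
    (a1 : |p₁ - ω * q₁| ≤ δ) (a2 : |p - ω * q| ≤ δ) (b1 : |p₁ + ω * q₁| ≤ Λ)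
    (b2 : |p + ω * q| ≤ Λ) :
    adjoin ℚ {-(p₁ + ω * q₁) / (p + ω * q)} = K ∧ ∃ P : ℤ[X], P.IsPrimitive ∧
      aeval (-(p₁ + ω * q₁) / (p + ω * q)) P = 0 ∧
      P.natDegree = (minpoly ℚ (-(p₁ + ω * q₁) / (p + ω * q))).natDegree ∧
      (hgt P : ℝ) ≤ 2 * D * δ * Λ := by
  have n1 : p + ω * q ≠ 0 := fun h => by
    obtain ⟨rfl, rfl⟩ := irr_lin hi (a := p) (b := q) (by linarith)
    simp at det
  have n2 : p - ω * q ≠ 0 := fun h => by
    obtain ⟨rfl, h'⟩ := irr_lin hi (a := p) (b := -q) (by push_cast; linarith)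
    rw [show q = 0 by omega] at det
    simp at det
  set α := -(p₁ + ω * q₁) / (p + ω * q) with hα
  have e : (p + ω * q) * α + (p₁ + ω * q₁) = 0 := by rw [hα]; field_simp; ring
  have k : α ∈ K := div_mem (neg_mem (add_mem (intCast_mem K _) (mul_mem h (intCast_mem K _))))
    (add_mem (intCast_mem K _) (mul_mem h (intCast_mem K _)))
  have i : Irrational α := by
    rintro ⟨t, ht⟩
    have e1 : (t.den : ℝ) * α = t.num := by rw [← ht]; exact_mod_cast Rat.den_mul_eq_num t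
    obtain ⟨u, v⟩ := irr_lin hi (a := p * t.num + p₁ * t.den) (b := q * t.num + q₁ * t.den)
      (by push_cast; rw [← e1]; linear_combination (t.den : ℝ) * e)
    have : (t.den : ℤ) = 0 := by linear_combination p * v - q * u - t.den * det
    exact t.den_nz (by exact_mod_cast this)
  obtain ⟨g1, g2⟩ := gen hK k i
  have D1 : (0 : ℝ) < D := by exact_mod_cast D0
  have δ0 : 0 ≤ δ := (abs_nonneg _).trans a1
  have Λ0 : 0 ≤ Λ := (abs_nonneg _).trans b1
  have ea : ((D * p ^ 2 - N * q ^ 2 : ℤ) : ℝ) = D * ((p - ω * q) * (p + ω * q)) := by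
    push_cast; rw [← hN]; ring
  have eb : ((2 * (D * p * p₁ - N * q * q₁) : ℤ) : ℝ) =
      D * ((p - ω * q) * (p₁ + ω * q₁) + (p₁ - ω * q₁) * (p + ω * q)) := by
    push_cast; rw [← hN]; ring
  have ec : ((D * p₁ ^ 2 - N * q₁ ^ 2 : ℤ) : ℝ) = D * ((p₁ - ω * q₁) * (p₁ + ω * q₁)) := by
    push_cast; rw [← hN]; ring
  have pr : ∀ u v : ℝ, |u| ≤ δ → |v| ≤ Λ → |u * v| ≤ δ * Λ := fun u v hu hv => by
    rw [abs_mul]; gcongr
  have c0 : 0 ≤ D * (δ * Λ) := by positivity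
  generalize D * p ^ 2 - N * q ^ 2 = a at ea
  generalize 2 * (D * p * p₁ - N * q * q₁) = b at eb
  generalize D * p₁ ^ 2 - N * q₁ ^ 2 = c at ec
  have a0 : a ≠ 0 := by
    rintro rfl
    exact mul_ne_zero D1.ne' (mul_ne_zero n2 n1) (by simpa using ea.symm)
  set P : ℤ[X] := C a * X ^ 2 + C b * X + C c with hP
  have dP : P.natDegree = 2 := natDegree_quadratic a0
  have P0 : P ≠ 0 := by
    rintro h
    simp [h] at dP
  refine ⟨g1, P.primPart, P.isPrimitive_primPart, aeval_primPart_eq_zero P0 ?_,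
    by rw [natDegree_primPart, dP, g2], hgt_le _ _ (by positivity) fun j => ?_⟩
  · simp only [hP, map_add, map_mul, map_pow, aeval_X, eq_intCast, map_intCast]
    rw [ea, eb, ec]
    linear_combination D * ((p - ω * q) * α + (p₁ - ω * q₁)) * e
  · have h1 : |(P.primPart.coeff j : ℝ)| ≤ |(P.coeff j : ℝ)| := by
      have h2 : (1 : ℝ) ≤ |(P.content : ℝ)| := by
        exact_mod_cast Int.one_le_abs (mt content_eq_zero_iff.1 P0)
      conv_rhs => rw [P.eq_C_content_mul_primPart, coeff_C_mul, Int.cast_mul, abs_mul]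
      exact le_mul_of_one_le_left (abs_nonneg _) h2
    refine h1.trans ?_
    match j with
    | 0 =>
      rw [show P.coeff 0 = c by simp [hP], ec, abs_mul, abs_of_pos D1]
      have := mul_le_mul_of_nonneg_left (pr _ _ a1 b1) D1.le
      linarith
    | 1 =>
      rw [show P.coeff 1 = b by
        simp only [hP, coeff_add, coeff_C_mul, coeff_X_pow, coeff_X, coeff_C]; simp, eb, abs_mul, abs_of_pos D1]
      have := mul_le_mul_of_nonneg_left
        ((abs_add_le _ _).trans (add_le_add (pr _ _ a2 b1) (pr _ _ a1 b2))) D1.le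
      linarith
    | 2 =>
      rw [show P.coeff 2 = a by
        simp only [hP, coeff_add, coeff_C_mul, coeff_X_pow, coeff_X, coeff_C]; simp, ea, abs_mul, abs_of_pos D1]
      have := mul_le_mul_of_nonneg_left (pr _ _ a2 b2) D1.le
      linarith
    | j + 3 =>
      rw [coeff_eq_zero_of_natDegree_lt (by omega)]
      simp only [Int.cast_zero, abs_zero]; positivity

lemma quad_root {α : ℝ} (P : ℤ[X]) (d : P.natDegree = 2) (e : aeval α P = 0) :
    ∃ (a b c : ℤ) (α' : ℝ), a ≠ 0 ∧ a * (α + α') = -b ∧ a * (α * α') = c ∧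
      |(a : ℝ)| * (max 1 |α| * max 1 |α'|) ≤ 2 * hgt P := by
  have a0 : P.coeff 2 ≠ 0 := by
    rw [← d]
    refine leadingCoeff_ne_zero.2 fun h => ?_
    simp [h] at d
  have a1 : (P.coeff 2 : ℝ) ≠ 0 := by exact_mod_cast a0
  rw [aeval_eq_sum_range, d] at e
  simp only [Finset.sum_range_succ, Finset.range_zero, Finset.sum_empty, zsmul_eq_mul] at e
  have h0 := coeff_le_hgt P 0
  have h1 := coeff_le_hgt P 1
  have h2 := coeff_le_hgt P 2
  generalize P.coeff 0 = c at *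
  generalize P.coeff 1 = b at *
  generalize P.coeff 2 = a at *
  obtain ⟨α', e1⟩ : ∃ α' : ℝ, a * (α + α') = -b := ⟨-b / a - α, by field_simp; ring⟩
  have e2 : a * (α * α') = c := by linear_combination α * e1 - e
  refine ⟨a, b, c, α', a0, e1, e2, ?_⟩
  have p0 := abs_nonneg (a : ℝ)
  have key : ∀ u v : ℝ, a * (u + v) = -b → |v| ≤ 1 → |(a : ℝ)| * |u| ≤ 2 * hgt P := by
    intro u v h hv
    rw [← abs_mul, show a * u = -(b + a * v) by linarith, abs_neg]
    refine (abs_add_le _ _).trans ?_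
    rw [abs_mul]; nlinarith
  rcases le_total |α| 1 with h | h <;> rcases le_total |α'| 1 with h' | h'
  · rw [max_eq_left h, max_eq_left h']; linarith
  · rw [max_eq_left h, max_eq_right h', one_mul]
    exact key α' α (by linarith) h
  · rw [max_eq_right h, max_eq_left h', mul_one]
    exact key α α' e1 h'
  · rw [max_eq_right h, max_eq_right h', ← abs_mul, ← abs_mul, e2]
    linarith [abs_nonneg (c : ℝ)]

lemma liouville {α β : ℝ} (hα : α ∉ K) (hβ : β ∈ K) (P Q : ℤ[X]) (dP : P.natDegree = 2)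
    (dQ : Q.natDegree = 2) (eP : aeval α P = 0) (eQ : aeval β Q = 0) :
    1 ≤ 128 * (hgt P : ℝ) ^ 2 * (hgt Q : ℝ) ^ 2 * |α - β| := by
  obtain ⟨a, b, c, α', a0, a1, a2, a3⟩ := quad_root P dP eP
  obtain ⟨a', b', c', β', b0, b1, b2, b3⟩ := quad_root Q dQ eQ
  have a0' : (a : ℝ) ≠ 0 := by exact_mod_cast a0
  have b0' : (a' : ℝ) ≠ 0 := by exact_mod_cast b0
  have k1 : β' ∈ K := by
    rw [show β' = -b' / a' - β by rw [← b1]; field_simp; ring]
    exact sub_mem (div_mem (neg_mem (intCast_mem K _)) (intCast_mem K _)) hβ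
  have k2 : α' ∉ K := fun h => hα (by
    rw [show α = -b / a - α' by rw [← a1]; field_simp; ring]
    exact sub_mem (div_mem (neg_mem (intCast_mem K _)) (intCast_mem K _)) h)
  have ne : ∀ u v : ℝ, u ∉ K → v ∈ K → u - v ≠ 0 := fun u v hu hv h => hu (sub_eq_zero.1 h ▸ hv)
  have e : (((a * c' - a' * c) ^ 2 - (a * b' - a' * b) * (b * c' - b' * c) : ℤ) : ℝ) =
      a ^ 2 * a' ^ 2 * ((α - β') * (α' - β) * (α' - β')) * (α - β) := by
    push_cast
    rw [← a2, ← b2, show (b : ℝ) = -(a * (α + α')) by linarith,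
      show (b' : ℝ) = -(a' * (β + β')) by linarith]
    ring
  have n : (a * c' - a' * c) ^ 2 - (a * b' - a' * b) * (b * c' - b' * c) ≠ 0 := fun h => by
    rw [h, Int.cast_zero] at e
    exact mul_ne_zero (mul_ne_zero (by positivity) (mul_ne_zero (mul_ne_zero (ne _ _ hα k1)
      (ne _ _ k2 hβ)) (ne _ _ k2 k1))) (ne _ _ hα hβ) e.symm
  have h1 : (1 : ℝ) ≤ |(((a * c' - a' * c) ^ 2 - (a * b' - a' * b) * (b * c' - b' * c) : ℤ) : ℝ)| := by
    exact_mod_cast Int.one_le_abs n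
  have t : ∀ u v : ℝ, |u - v| ≤ 2 * (max 1 |u| * max 1 |v|) := fun u v => by
    have := abs_sub u v
    nlinarith [le_max_left 1 |u|, le_max_left 1 |v|, le_max_right 1 |u|, le_max_right 1 |v|]
  rw [e, abs_mul, abs_mul, abs_mul, abs_mul, abs_mul, abs_pow, abs_pow] at h1
  refine h1.trans (mul_le_mul_of_nonneg_right ?_ (abs_nonneg _))
  have m1 := le_max_left 1 |α|
  have m2 := le_max_left 1 |β|
  calc _ ≤ |(a : ℝ)| ^ 2 * |(a' : ℝ)| ^ 2 * (2 * (max 1 |α| * max 1 |β'|) *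
        (2 * (max 1 |α'| * max 1 |β|)) * (2 * (max 1 |α'| * max 1 |β'|))) := by
        gcongr <;> exact t _ _
    _ ≤ |(a : ℝ)| ^ 2 * |(a' : ℝ)| ^ 2 * (2 * (max 1 |α| * max 1 |β'|) *
        (2 * (max 1 |α'| * max 1 |β|)) * (2 * (max 1 |α'| * max 1 |β'|))) *
        (max 1 |α| * max 1 |β|) :=
        le_mul_of_one_le_right (by positivity) (one_le_mul_of_one_le_of_one_le m1 m2)
    _ = 8 * (|(a : ℝ)| * (max 1 |α| * max 1 |α'|)) ^ 2 *
        (|(a' : ℝ)| * (max 1 |β| * max 1 |β'|)) ^ 2 := by ring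
    _ ≤ 8 * (2 * hgt P) ^ 2 * (2 * hgt Q) ^ 2 := by gcongr
    _ = _ := by ring

end Pool.Agent.MP_3c6bfc_nt.Quad
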