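import Pool.Agent.MP_3c6bfc_nt.QuadC

/-! The construction of close generators of two real quadratic fields. -/

namespace Pool.Agent.MP_3c6bfc_nt.Quad
open Polynomial IntermediateField Module

lemma pell {D : ℤ} {d : ℝ} (hd : d ^ 2 = D) (id : Irrational d) (N : ℕ) :
    ∃ x y : ℤ, x ^ 2 - D * y ^ 2 = 1 ∧ 1 ≤ y ∧ 1 ≤ x ∧ N ≤ x := by
  have D0 : 0 < D := by
    have : (0 : ℝ) < D := by rw [← hd]; exact sq_pos_of_ne_zero id.ne_zero
    exact_mod_cast this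
  induction N with
  | zero =>
    obtain ⟨x, y, h, hy⟩ := Pell.exists_of_not_isSquare D0 (by
      rintro ⟨k, rfl⟩
      have : (d - k) * (d + k) = 0 := by push_cast at hd; linarith
      rcases mul_eq_zero.1 this with h | h
      · exact id.ne_int k (by linarith)
      · exact id.ne_int (-k) (by push_cast; linarith))
    refine ⟨|x|, |y|, by rwa [sq_abs, sq_abs], Int.one_le_abs hy, Int.one_le_abs ?_, abs_nonneg _⟩
    rintro rfl
    nlinarith [sq_nonneg y]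
  | succ N ih =>
    obtain ⟨x, y, h, hy, hx, hN⟩ := ih
    have : 1 ≤ D * y ^ 2 := by nlinarith
    refine ⟨x ^ 2 + D * y ^ 2, 2 * x * y, by linear_combination (x ^ 2 - D * y ^ 2 + 1) * h,
      by nlinarith, by nlinarith, ?_⟩
    push_cast; nlinarith

lemma bezout (t : ℚ) : ∃ p₁ q₁ : ℤ, t.num * q₁ - p₁ * t.den = 1 ∧ 0 ≤ q₁ ∧ q₁ ≤ t.den := by
  obtain ⟨a, b, h⟩ : IsCoprime t.num (t.den : ℤ) := Int.isCoprime_iff_gcd_eq_one.2 t.reduced
  have d0 : (0 : ℤ) < t.den := by exact_mod_cast t.den_pos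
  refine ⟨-(b + a / t.den * t.num), a % t.den, ?_, Int.emod_nonneg _ d0.ne',
    (Int.emod_lt_of_pos _ d0).le⟩
  rw [Int.emod_def]; linear_combination h

/-- The estimates of the unimodular substitution. -/
lemma geom {Y Z ω ω' p q p₁ q₁ : ℝ} (hY : 4 ≤ Y) (hZ : Y ≤ Z) (w1 : Z ^ 2 ≤ ω) (w2 : ω ≤ Y * Z ^ 2)
    (w3 : |ω - ω'| * Z ^ 2 ≤ Y) (q0 : 1 ≤ q) (qZ : q ≤ Z) (r0 : 0 ≤ q₁) (r1 : q₁ ≤ q)
    (det : p * q₁ - p₁ * q = 1) (hp : |q * ω - p| * Z ≤ 1) :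
    (∀ w, w = ω ∨ w = ω' → |p₁ - w * q₁| ≤ 2 * Y / q ∧ |p - w * q| ≤ 2 * Y / q ∧
      |p₁ + w * q₁| ≤ 6 * Y * Z ^ 2 * q ∧ |p + w * q| ≤ 6 * Y * Z ^ 2 * q) ∧
    |-(p₁ + ω * q₁) / (p + ω * q) - -(p₁ + ω' * q₁) / (p + ω' * q)| * (Z ^ 6 * q ^ 2) ≤ Y := by
  have Z2 : 4 * Y ≤ Z ^ 2 := by nlinarith
  have e0 := abs_nonneg (ω - ω')
  have e1 := abs_nonneg (q * ω - p)
  have a1 : |p - ω * q| * q ≤ 1 := by
    rw [abs_sub_comm, mul_comm ω]; exact le_trans (by gcongr) hp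
  have a2 : |p₁ - ω * q₁| * q ≤ 2 := by
    rw [← abs_of_pos (by linarith : 0 < q), ← abs_mul,
      show (p₁ - ω * q₁) * q = -((q * ω - p) * q₁ + 1) by linear_combination -det, abs_neg]
    refine (abs_add_le _ _).trans ?_
    rw [abs_mul, abs_of_nonneg r0, abs_one]
    have : |q * ω - p| * q₁ ≤ |q * ω - p| * Z := by gcongr; linarith
    linarith
  have a3 : |ω - ω'| * q * q ≤ Y := by
    refine le_trans ?_ w3
    rw [mul_assoc, sq]; gcongr; linarith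
  have a4 : |ω - ω'| ≤ 1 := by nlinarith
  obtain ⟨a5, a6⟩ := abs_le.1 a4
  have sub : ∀ u v : ℝ, 0 ≤ v → v ≤ q → |u - ω * v| * q ≤ 2 → ∀ w, w = ω ∨ w = ω' →
      |u - w * v| ≤ 2 * Y / q ∧ |u + w * v| ≤ 6 * Y * Z ^ 2 * q := by
    intro u v v0 v1 h w hw
    have b1 : |u - w * v| * q ≤ 2 * Y := by
      rcases hw with rfl | rfl
      · linarith
      · rw [show u - w * v = (u - ω * v) + (ω - w) * v by ring]
        have := abs_add_le (u - ω * v) ((ω - w) * v)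
        rw [abs_mul, abs_of_nonneg v0] at this
        have b2 : |ω - w| * v * q ≤ |ω - w| * q * q := by gcongr
        nlinarith
    have b2 : 0 ≤ w ∧ w ≤ 2 * (Y * Z ^ 2) := by
      rcases hw with rfl | rfl <;> constructor <;> nlinarith
    refine ⟨(le_div_iff₀ (by linarith)).2 b1, ?_⟩
    rw [show u + w * v = (u - w * v) + 2 * (w * v) by ring]
    refine (abs_add_le _ _).trans ?_
    rw [abs_of_nonneg (by nlinarith [b2.1] : 0 ≤ 2 * (w * v))]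
    have b3 : |u - w * v| ≤ 2 * Y := (le_mul_of_one_le_right (abs_nonneg _) q0).trans b1
    have b4 : w * v ≤ 2 * (Y * Z ^ 2) * q := mul_le_mul b2.2 v1 v0 (by nlinarith)
    have b5 : Y * 1 ≤ Y * (Z ^ 2 * q) := by gcongr; nlinarith
    nlinarith
  refine ⟨fun w hw => ⟨(sub _ _ r0 r1 a2 w hw).1, (sub _ _ (by linarith) le_rfl (by linarith) w hw).1,
    (sub _ _ r0 r1 a2 w hw).2, (sub _ _ (by linarith) le_rfl (by linarith) w hw).2⟩, ?_⟩
  obtain ⟨c1, -⟩ := abs_le.1 ((le_mul_of_one_le_right (abs_nonneg _) q0).trans a1)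
  have c2 : Z ^ 2 * q ≤ ω * q := by gcongr
  have c3 : Z ^ 2 * 1 ≤ Z ^ 2 * q := by gcongr
  have c4 : (ω - 1) * q ≤ ω' * q := by gcongr; linarith
  have c5 : 16 * q ≤ Z ^ 2 * q := by gcongr; linarith
  have l1 : Z ^ 2 * q ≤ p + ω * q := by nlinarith
  have l2 : Z ^ 2 * q ≤ p + ω' * q := by nlinarith
  have z0 : 0 < Z ^ 2 * q := by nlinarith
  have p1 : 0 < p + ω * q := by linarith
  have p2 : 0 < p + ω' * q := by linarith
  rw [show -(p₁ + ω * q₁) / (p + ω * q) - -(p₁ + ω' * q₁) / (p + ω' * q) =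
      -(ω - ω') / ((p + ω * q) * (p + ω' * q)) by
        rw [div_sub_div _ _ p1.ne' p2.ne']; congr 1; linear_combination -(ω - ω') * det,
    abs_div, abs_neg, abs_of_pos (mul_pos p1 p2), div_mul_eq_mul_div, div_le_iff₀ (mul_pos p1 p2)]
  calc _ = |ω - ω'| * Z ^ 2 * (Z ^ 2 * q * (Z ^ 2 * q)) := by ring
    _ ≤ _ := by gcongr

lemma ub (a b c d e f g : ℝ) :
    ∃ y, a ≤ y ∧ b ≤ y ∧ c ≤ y ∧ d ≤ y ∧ e ≤ y ∧ f ≤ y ∧ g ≤ y :=
  ⟨max a (max b (max c (max d (max e (max f g))))), by simp, by simp, by simp, by simp, by simp,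
    by simp, by simp⟩

lemma fin1 {Y Z q D n : ℝ} (hY : 0 ≤ Y) (hq : 1 ≤ q) (hD : D ≤ n) (hn : 24 * n ≤ Y) :
    2 * D * (2 * Y / q) * (6 * Y * Z ^ 2 * q) ≤ Y ^ 3 * Z ^ 2 := by
  calc _ = 24 * D * (Y ^ 2 * Z ^ 2) := by field_simp; ring
    _ ≤ Y * (Y ^ 2 * Z ^ 2) := by gcongr; linarith
    _ = _ := by ring

lemma fin2 {Y Z q e : ℝ} (hY : 0 ≤ Y) (hZ : 0 ≤ Z) (big : Z ≤ q * Y ^ 32) (e0 : 0 ≤ e)
    (h : e * (Z ^ 6 * q ^ 2) ≤ Y) : e * Z ^ 8 ≤ Y ^ 65 := by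
  calc _ = e * (Z ^ 6 * Z ^ 2) := by ring
    _ ≤ e * (Z ^ 6 * (q * Y ^ 32) ^ 2) := by gcongr
    _ = e * (Z ^ 6 * q ^ 2) * Y ^ 64 := by ring
    _ ≤ Y * Y ^ 64 := by gcongr
    _ = _ := by ring

lemma pell_est {x y d : ℝ} (x1 : 1 ≤ x) (y1 : 1 ≤ y) (d1 : 1 ≤ d)
    (pe : (x - y * d) * (x + y * d) = 1) :
    1 ≤ y * d ∧ 0 < x - y * d ∧ (x - y * d) * x ≤ 1 ∧ y ≤ x := by
  have yd : 1 ≤ y * d := one_le_mul_of_one_le_of_one_le y1 d1
  have η0 : 0 < x - y * d := by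
    by_contra h
    nlinarith
  exact ⟨yd, η0, by nlinarith, by nlinarith⟩

theorem close {K₁ K₂ : IntermediateField ℚ ℝ} (h₁ : finrank ℚ K₁ = 2) (h₂ : finrank ℚ K₂ = 2)
    (hne : K₁ ≠ K₂) (T : ℕ) (hT : T ≠ 0) (Y₀ : ℝ) :
    ∃ (Y α β : ℝ) (P Q : ℤ[X]), Y₀ ≤ Y ∧ adjoin ℚ {α} = K₁ ∧ adjoin ℚ {β} = K₂ ∧
      P.IsPrimitive ∧ Q.IsPrimitive ∧ aeval α P = 0 ∧ aeval β Q = 0 ∧
      P.natDegree = (minpoly ℚ α).natDegree ∧ Q.natDegree = (minpoly ℚ β).natDegree ∧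
      (hgt P : ℝ) ≤ Y ^ 3 * (Y ^ T) ^ 2 ∧ (hgt Q : ℝ) ≤ Y ^ 3 * (Y ^ T) ^ 2 ∧
      |α - β| * (Y ^ T) ^ 8 ≤ Y ^ 65 := by
  have : FiniteDimensional ℚ K₂ := FiniteDimensional.of_finrank_pos (by omega)
  obtain ⟨m, r, hr, ir, kr, r1⟩ := exists_sqrt h₁
  obtain ⟨n, s, hs, is, ks, s1⟩ := exists_sqrt h₂
  have id : Irrational (r * s) := by
    rintro ⟨t, ht⟩
    refine hne (eq_of_le_of_finrank_eq ?_ (h₁.trans h₂.symm))
    rw [← (gen h₁ kr ir).1, adjoin_simple_le_iff, show r = t / s by rw [ht]; field_simp]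
    exact div_mem (SubfieldClass.ratCast_mem K₂ t) ks
  have dd : (r * s) ^ 2 = (m * n : ℤ) := by rw [mul_pow, hr, hs, Int.cast_mul]
  have d1 : 1 ≤ r * s := one_le_mul_of_one_le_of_one_le r1 s1
  have n1 : (1 : ℝ) ≤ n := by rw [← hs]; exact one_le_pow₀ s1
  obtain ⟨L, hL⟩ : ∃ L, L = T * (T + 1) + 1 := ⟨_, rfl⟩
  have L0 : (0 : ℝ) ≤ L := by positivity
  obtain ⟨Y₁, y0, y1, y2, y3, y4, y5, y6⟩ : ∃ Y₁ : ℝ, Y₀ ≤ Y₁ ∧ 4 ≤ Y₁ ∧
      (T + 2 : ℝ) * L ^ (T + 2) ≤ Y₁ ∧ (2 * (|r * s| + L) + 1) ^ L ≤ Y₁ ∧ r * (L + 2) ≤ Y₁ ∧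
      r * s + L ≤ Y₁ ∧ 24 * n ≤ Y₁ := ub _ _ _ _ _ _ _
  obtain ⟨N, hN⟩ := exists_nat_ge (Y₁ ^ (T * 2))
  obtain ⟨x, y, pe, y1', x1, xN⟩ := pell dd id N
  have x1' : (1 : ℝ) ≤ x := by exact_mod_cast x1
  have y1'' : (1 : ℝ) ≤ y := by exact_mod_cast y1'
  obtain ⟨Y, hY, Y0⟩ : ∃ Y : ℝ, Y ^ (T * 2) = x ∧ 0 ≤ Y :=
    ⟨(x : ℝ) ^ (((T * 2 : ℕ) : ℝ)⁻¹), Real.rpow_inv_natCast_pow (by linarith) (by omega),
      by positivity⟩
  have YY : Y₁ ≤ Y := le_of_pow_le_pow_left₀ (n := T * 2) (by omega) Y0 (by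
    rw [hY]; exact hN.trans (by exact_mod_cast xN))
  rw [pow_mul] at hY
  have ZY : Y ≤ Y ^ T := le_self_pow₀ (by linarith) hT
  have pe' : (x - y * (r * s)) * (x + y * (r * s)) = 1 := by
    have : (x : ℝ) ^ 2 - (m * n : ℤ) * y ^ 2 = 1 := by exact_mod_cast pe
    rw [← dd] at this; linarith
  obtain ⟨yd, η0, η1, yx⟩ := pell_est x1' y1'' d1 pe'
  have r2 : 2 * r ≤ Y := by linarith [mul_nonneg (zero_le_one.trans r1) L0]
  have hn : 0 < ⌊Y ^ T⌋₊ := Nat.floor_pos.2 (by linarith)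
  choose t t1 t2 using fun i : ℕ => Real.exists_rat_abs_sub_le_and_den_le (r * (x + y * i)) hn
  have hp : ∀ i : ℕ, |((t i).den : ℤ) * (r * (x + y * i)) - (t i).num| * Y ^ T ≤ 1 := fun i => by
    have e1 : ((t i).den : ℝ) * t i = (t i).num := by exact_mod_cast Rat.den_mul_eq_num (t i)
    have d0 : (0 : ℝ) < (t i).den := by exact_mod_cast (t i).den_pos
    have h1 := t1 i
    rw [le_div_iff₀ (by positivity)] at h1
    rw [Int.cast_natCast, ← e1, ← mul_sub, abs_mul, abs_of_pos d0]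
    refine le_trans ?_ h1
    rw [mul_comm (_ : ℝ) |_|, mul_assoc, mul_comm _ (Y ^ T)]
    gcongr
    exact (Nat.lt_floor_add_one _).le
  obtain ⟨i, iL, big⟩ := large_den hr hs ir is id x y (by linarith) T L hL Y (by linarith)
    (y2.trans YY) (y3.trans YY)
    (by
      rw [hY, abs_of_nonneg (by positivity)]
      calc _ ≤ r * (2 * x) := by gcongr; linarith
        _ = 2 * r * x := by ring
        _ ≤ _ := by gcongr)
    (by
      rw [hY, abs_of_nonneg (by positivity), le_div_iff₀ (by linarith), mul_assoc]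
      calc _ ≤ r * 1 := by gcongr
        _ ≤ _ := by linarith)
    (fun i => (t i).num) (fun i => (t i).den) (fun i => by exact_mod_cast (t i).den_pos) hp
  obtain ⟨p₁, q₁, det, q0, q1⟩ := bezout (t i)
  have qZ : (((t i).den : ℤ) : ℝ) ≤ Y ^ T :=
    le_trans (by exact_mod_cast t2 i) (Nat.floor_le (by positivity))
  have q2 : (1 : ℝ) ≤ ((t i).den : ℤ) := by exact_mod_cast (t i).den_pos
  have hpi := hp i
  generalize (t i).num = p at *
  generalize ((t i).den : ℤ) = q at *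
  have iL' : (i : ℝ) ≤ L := by exact_mod_cast iL.le
  have i0 : (0 : ℝ) ≤ i := by positivity
  have s0 : s ≠ 0 := by positivity
  have yi : y * (i : ℝ) ≤ x * L := by gcongr
  have yi0 : 0 ≤ y * (i : ℝ) := by positivity
  obtain ⟨g1, g2⟩ := geom (Y := Y) (Z := Y ^ T) (ω := r * (x + y * i))
    (ω' := ((i * x + m * n * y : ℤ) : ℝ) / s) (p := p) (q := q) (p₁ := p₁) (q₁ := q₁) (by linarith) ZY
    (by
      rw [hY]
      calc (x : ℝ) = 1 * (x + 0) := by ring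
        _ ≤ _ := by gcongr)
    (by
      rw [hY]
      calc _ ≤ r * (2 * x + x * L) := by gcongr; linarith
        _ = r * (L + 2) * x := by ring
        _ ≤ _ := by gcongr; linarith)
    (by
      rw [hY, show r * (x + y * i) - ((i * x + m * n * y : ℤ) : ℝ) / s =
        (r * s - i) * (x - y * (r * s)) / s by
          rw [Int.cast_add, Int.cast_mul (m * n), ← dd]; push_cast; field_simp; ring,
        abs_div, abs_mul, abs_of_pos η0, abs_of_pos (by linarith : 0 < s)]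
      have h1 : |r * s - i| ≤ Y := abs_le.2 ⟨by linarith, by linarith⟩
      calc _ = |r * s - i| * ((x - y * (r * s)) * x) / s := by ring
        _ ≤ Y * 1 / 1 := by gcongr
        _ = Y := by ring)
    q2 qZ (by exact_mod_cast q0) (by exact_mod_cast q1) (by exact_mod_cast det) hpi
  obtain ⟨a1, a2, a3, a4⟩ := g1 _ (Or.inl rfl)
  obtain ⟨b1, b2, b3, b4⟩ := g1 _ (Or.inr rfl)
  have v0 : x + y * i ≠ 0 := by positivity
  have mn : (1 : ℤ) ≤ m * n := by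
    have : (1 : ℝ) ≤ (m * n : ℤ) := by rw [← dd]; exact one_le_pow₀ d1
    exact_mod_cast this
  have u0 : i * x + m * n * y ≠ 0 := by positivity
  obtain ⟨k1, P, P1, P2, P3, P4⟩ := mobius h₁ (ω := r * (x + y * i))
    (mul_mem kr (add_mem (intCast_mem _ _) (mul_mem (intCast_mem _ _) (_root_.natCast_mem _ _))))
    (by exact_mod_cast ir.mul_intCast v0) (m * (x + y * i) ^ 2) 1 one_pos
    (by push_cast; rw [← hr]; ring) p₁ q₁ p q det _ _ a1 a2 a3 a4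
  obtain ⟨k2, Q, Q1, Q2, Q3, Q4⟩ := mobius h₂ (ω := ((i * x + m * n * y : ℤ) : ℝ) / s)
    (div_mem (intCast_mem _ _) ks) (is.intCast_div u0) ((i * x + m * n * y) ^ 2) n
    (by exact_mod_cast (by linarith : (0 : ℝ) < n))
    (by rw [← hs, Int.cast_pow]; field_simp) p₁ q₁ p q det _ _ b1 b2 b3 b4
  exact ⟨Y, _, _, P, Q, y0.trans YY, k1, k2, P1, Q1, P2, Q2, P3, Q3,
    P4.trans (fin1 Y0 q2 (by simpa using n1) (y6.trans YY)),
    Q4.trans (fin1 Y0 q2 le_rfl (y6.trans YY)), fin2 Y0 (by positivity) big (abs_nonneg _) g2⟩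

lemma lin_root {α : ℝ} (P : ℤ[X]) (d : P.natDegree = 1) (e : aeval α P = 0) :
    (X * P).natDegree = 2 ∧ hgt (X * P) ≤ (hgt P : ℝ) ∧ P.coeff 1 ≠ 0 ∧
      P.coeff 1 * α + P.coeff 0 = 0 := by
  have P0 : P ≠ 0 := by
    rintro rfl
    simp at d
  refine ⟨by rw [natDegree_X_mul P0, d], hgt_le _ _ (by positivity) fun i => ?_,
    by rw [← d]; exact leadingCoeff_ne_zero.2 P0, ?_⟩
  · cases i with
    | zero => simp
    | succ i => rw [coeff_X_mul]; exact coeff_le_hgt P i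
  · rw [aeval_eq_sum_range, d] at e
    simp only [Finset.sum_range_succ, Finset.range_zero, Finset.sum_empty, zsmul_eq_mul] at e
    linarith

/-- The inequality of Liouville for all pairs of distinct elements of the two fields. -/
theorem liouville_all {K₁ K₂ : IntermediateField ℚ ℝ} (h₁ : finrank ℚ K₁ = 2)
    (h₂ : finrank ℚ K₂ = 2) (hne : K₁ ≠ K₂) {α β : ℝ} (hα : α ∈ K₁) (hβ : β ∈ K₂) (ne : α ≠ β)
    (P Q : ℤ[X]) (eP : aeval α P = 0) (eQ : aeval β Q = 0)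
    (dP : P.natDegree = (minpoly ℚ α).natDegree) (dQ : Q.natDegree = (minpoly ℚ β).natDegree) :
    1 ≤ 128 * (hgt P : ℝ) ^ 2 * (hgt Q : ℝ) ^ 2 * |α - β| := by
  have : FiniteDimensional ℚ K₂ := FiniteDimensional.of_finrank_pos (by omega)
  have mixed : ∀ (α β : ℝ) (P Q : ℤ[X]), Irrational α → ¬ Irrational β → aeval α P = 0 →
      aeval β Q = 0 → P.natDegree = 2 → Q.natDegree = (minpoly ℚ β).natDegree →
      1 ≤ 128 * (hgt P : ℝ) ^ 2 * (hgt Q : ℝ) ^ 2 * |α - β| := by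
    intro α β P Q i j eP eQ dP dQ
    rw [minpoly.natDegree_eq_one_iff.2 (not_not.1 j)] at dQ
    obtain ⟨l1, l2, -, -⟩ := lin_root Q dQ eQ
    refine (liouville (K := ⊥) (fun h => i (mem_bot.1 h)) (mem_bot.2 (not_not.1 j)) P (X * Q) dP l1
      eP (by rw [map_mul, eQ, mul_zero])).trans ?_
    gcongr
  by_cases i : Irrational α <;> by_cases j : Irrational β
  · obtain ⟨g1, g2⟩ := gen h₁ hα i
    refine liouville (fun h => hne (eq_of_le_of_finrank_eq ?_ (h₁.trans h₂.symm))) hβ P Q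
      (dP.trans g2) (dQ.trans (gen h₂ hβ j).2) eP eQ
    rwa [← g1, adjoin_simple_le_iff]
  · exact mixed α β P Q i j eP eQ (dP.trans (gen h₁ hα i).2) dQ
  · have := mixed β α Q P j i eQ eP (dQ.trans (gen h₂ hβ j).2) dP
    rw [abs_sub_comm]; linarith
  · rw [minpoly.natDegree_eq_one_iff.2 (not_not.1 i)] at dP
    rw [minpoly.natDegree_eq_one_iff.2 (not_not.1 j)] at dQ
    obtain ⟨-, -, a0, a1⟩ := lin_root P dP eP
    obtain ⟨-, -, b0, b1⟩ := lin_root Q dQ eQ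
    have a2 := coeff_le_hgt P 1
    have b2 := coeff_le_hgt Q 1
    have a3 : (1 : ℝ) ≤ |(P.coeff 1 : ℝ)| := by exact_mod_cast Int.one_le_abs a0
    have b3 : (1 : ℝ) ≤ |(Q.coeff 1 : ℝ)| := by exact_mod_cast Int.one_le_abs b0
    have e : ((P.coeff 1 * Q.coeff 0 - Q.coeff 1 * P.coeff 0 : ℤ) : ℝ) =
        P.coeff 1 * Q.coeff 1 * (α - β) := by
      push_cast; linear_combination (P.coeff 1 : ℝ) * b1 - (Q.coeff 1 : ℝ) * a1
    have n : P.coeff 1 * Q.coeff 0 - Q.coeff 1 * P.coeff 0 ≠ 0 := fun h => by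
      rw [h, Int.cast_zero] at e
      exact mul_ne_zero (mul_ne_zero (by exact_mod_cast a0) (by exact_mod_cast b0))
        (sub_ne_zero.2 ne) e.symm
    have h : (1 : ℝ) ≤ |((P.coeff 1 * Q.coeff 0 - Q.coeff 1 * P.coeff 0 : ℤ) : ℝ)| := by
      exact_mod_cast Int.one_le_abs n
    rw [e, abs_mul, abs_mul] at h
    refine h.trans ?_
    have a4 : |(P.coeff 1 : ℝ)| ≤ 128 * (hgt P : ℝ) ^ 2 := by nlinarith
    have b4 : |(Q.coeff 1 : ℝ)| ≤ (hgt Q : ℝ) ^ 2 := by nlinarith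
    gcongr

end Pool.Agent.MP_3c6bfc_nt.Quad
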